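import Pool.Agent.Q78.FE.Stm

set_option autoImplicit false
set_option linter.unusedSectionVars false

/-! Jobs LOC, OUT, ATT, GG, ADD of project FE: geometry of a gadget. -/

namespace Pool.Agent.Q239.FE

open H974 hiding KK
open Finset Q78.FE Pool.Agent.H160R2.CV Pool.Agent.H160R2.CV.Quad H362P

/-- first exit of a box -/
lemma fexit {G : Set Edg} {z x y : Vtx} {m : ℕ} (hx : nv (x - z) ≤ m) (hy : m ≤ nv (y - z))
    (h : Reach G x y) : ∃ w, nv (w - z) = m ∧ Reach (G ∩ ↑(bo z m)) x w := by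
  obtain ⟨w, h1, h2, h3⟩ := first_exit (a := z.1 - m) (b := z.1 + m) (c := z.2 - m) (d := z.2 + m)
    (u := x) (v := y) (by
      unfold nv at hx
      simp only [Prod.fst_sub, Prod.snd_sub] at hx
      unfold inR
      omega) h (by
      unfold nv at hy
      simp only [Prod.fst_sub, Prod.snd_sub] at hy
      omega)
  refine ⟨w, ?_, h3⟩
  unfold inR at h1
  unfold nv
  simp only [Prod.fst_sub, Prod.snd_sub]
  omega

/-- last exit of a box -/
lemma lexit {G : Set Edg} {z x y : Vtx} {m : ℕ} (hx : nv (x - z) ≤ m) (h : Reach G x y) :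
    ∃ w, nv (w - z) ≤ m ∧ Reach (G \ ↑(bo z m)) w y := by
  obtain ⟨w, h1, h2⟩ := last_exit (a := z.1 - m) (b := z.1 + m) (c := z.2 - m) (d := z.2 + m)
    (x := x) (w := y) (by
      unfold nv at hx
      simp only [Prod.fst_sub, Prod.snd_sub] at hx
      unfold inR
      omega) h
  refine ⟨w, ?_, h2⟩
  unfold inR at h1
  unfold nv
  simp only [Prod.fst_sub, Prod.snd_sub]
  omega

lemma nv_tri (x y z : Vtx) : nv (x - z) ≤ nv (x - y) + nv (y - z) := by
  unfold nv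
  simp only [Prod.fst_sub, Prod.snd_sub]
  omega

lemma nv_symm (x y : Vtx) : nv (x - y) = nv (y - x) := by
  unfold nv
  simp only [Prod.fst_sub, Prod.snd_sub]
  omega

/-- a path inside a box stays there -/
lemma reach_box {G : Set Edg} {z x y : Vtx} {m : ℕ} (hx : nv (x - z) ≤ m)
    (h : Reach (G ∩ ↑(bo z m)) x y) : nv (y - z) ≤ m := by
  induction h with
  | refl => exact hx
  | tail _ hs _ =>
    obtain ⟨e, he, hc⟩ := hs
    have h1 := bo_ends (Finset.mem_coe.mp he.2)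
    rcases hc with ⟨h2, h3⟩ | ⟨h2, h3⟩
    · rw [← h3]; exact h1.2
    · rw [← h2]; exact h1.1

lemma bo_mono {z : Vtx} {m n : ℕ} (h : m ≤ n) : bo z m ⊆ bo z n := by
  rintro ⟨x, y, _ | _⟩ h1
  · simp only [bo, mem_RE_false] at h1 ⊢; omega
  · simp only [bo, mem_RE_true] at h1 ⊢; omega

lemma circ_loc {R1 R2 : ℤ} {r n : ℕ} (h1 : (r : ℤ) < R1) (h2 : R2 = n) (F : Finset Edg) :
    Circ R1 R2 F ↔ Circ R1 R2 (F ∩ (boxE n \ boxE r)) := by
  unfold Circ
  have e1 : LRE (-R2) R2 R1 R2 ⊆ boxE n \ boxE r := by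
    rintro ⟨x, y, _ | _⟩ h3
    · simp only [boxE, Finset.mem_sdiff, mem_RE_false, mem_LRE_false] at h3 ⊢; omega
    · simp only [boxE, Finset.mem_sdiff, mem_RE_true, mem_LRE_true] at h3 ⊢; omega
  have e2 : LRE (-R2) R2 (-R2) (-R1) ⊆ boxE n \ boxE r := by
    rintro ⟨x, y, _ | _⟩ h3
    · simp only [boxE, Finset.mem_sdiff, mem_RE_false, mem_LRE_false] at h3 ⊢; omega
    · simp only [boxE, Finset.mem_sdiff, mem_RE_true, mem_LRE_true] at h3 ⊢; omega
  have e3 : TBE R1 R2 (-R2) R2 ⊆ boxE n \ boxE r := by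
    rintro ⟨x, y, _ | _⟩ h3
    · simp only [boxE, Finset.mem_sdiff, mem_RE_false, mem_TBE_false] at h3 ⊢; omega
    · simp only [boxE, Finset.mem_sdiff, mem_RE_true, mem_TBE_true] at h3 ⊢; omega
  have e4 : TBE (-R2) (-R1) (-R2) R2 ⊆ boxE n \ boxE r := by
    rintro ⟨x, y, _ | _⟩ h3
    · simp only [boxE, Finset.mem_sdiff, mem_RE_false, mem_TBE_false] at h3 ⊢; omega
    · simp only [boxE, Finset.mem_sdiff, mem_RE_true, mem_TBE_true] at h3 ⊢; omega
  rw [← LRc_local e1, ← LRc_local e2, ← TBc_local e3, ← TBc_local e4]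

lemma CA_loc {z : Vtx} {R1 n r : ℕ} (h1 : r < R1) {F F' : Finset Edg}
    (h : F ∩ (bo z n \ bo z r) = F' ∩ (bo z n \ bo z r)) : CA z R1 n F ↔ CA z R1 n F' := by
  unfold CA
  rw [circ_loc (r := r) (n := n) (by exact_mod_cast h1) rfl,
    circ_loc (r := r) (n := n) (by exact_mod_cast h1) rfl ((trl (-z.1) (-z.2)).mp F'),
    ← trl_bo z n, ← trl_bo z r, ← LSym.mp_sdiff, ← LSym.mp_inter, ← LSym.mp_inter, h]

lemma inter_eq_coe {F F' A : Finset Edg} (h : F ∩ A = F' ∩ A) :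
    (↑F : Set Edg) ∩ ↑A = ↑F' ∩ ↑A := by
  rw [← Finset.coe_inter, ← Finset.coe_inter, h]

lemma inter_sub {F F' A B : Finset Edg} (hAB : A ⊆ B) (h : F ∩ B = F' ∩ B) : F ∩ A = F' ∩ A := by
  have h1 : F ∩ A = (F ∩ B) ∩ A := by
    rw [Finset.inter_assoc, Finset.inter_eq_right.mpr hAB]
  have h2 : F' ∩ A = (F' ∩ B) ∩ A := by
    rw [Finset.inter_assoc, Finset.inter_eq_right.mpr hAB]
  rw [h1, h2, h]

lemma An_sub (z : Vtx) (u : ℕ) : An z u ⊆ bo z (9 * u) := Finset.sdiff_subset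

lemma rad_congr {z : Vtx} {u : ℕ} {F F' : Finset Edg} (h : F ∩ An z u = F' ∩ An z u) (w : Vtx) :
    Rad z u F w ↔ Rad z u F' w := by
  unfold Rad
  rw [inter_eq_coe h]

theorem t_LOC : S_LOC := by
  intro z u hu F F'
  refine ⟨fun h => ⟨?_, rad_congr h⟩, ?_, ?_, ?_⟩
  · exact CA_loc (z := z) (n := 9 * u) (r := 2 * u) (by omega) h
  · intro h
    unfold Lk
    rw [CA_loc (z := z) (n := 90 * u) (r := 2 * u) (by omega) h, inter_eq_coe h]
  · intro h v
    unfold Hb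
    have h1 : F ∩ An z u = F' ∩ An z u := inter_sub (An_sub z u) h
    rw [inter_eq_coe h]
    constructor
    · rintro ⟨w, h2, h3⟩
      exact ⟨w, (rad_congr h1 w).mp h2, h3⟩
    · rintro ⟨w, h2, h3⟩
      exact ⟨w, (rad_congr h1 w).mpr h2, h3⟩
  · intro h
    have hc : (↑F : Set Edg) ⊆ ↑F' := by exact_mod_cast h
    have hR : ∀ w, Rad z u F w → Rad z u F' w := by
      rintro w ⟨h1, v, h2, h3⟩
      exact ⟨h1, v, h2, h3.mono (Set.inter_subset_inter_left _ hc)⟩
    refine ⟨fun h1 => Circ.mono (LSym.mp_mono _ h) h1, ?_, hR, ?_⟩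
    · rintro ⟨h1, w, v, h2, h3, h4⟩
      exact ⟨Circ.mono (LSym.mp_mono _ h) h1, w, v, h2, h3,
        h4.mono (Set.inter_subset_inter_left _ hc)⟩
    · rintro v ⟨w, h1, h2⟩
      exact ⟨w, hR w h1, h2.mono (Set.inter_subset_inter_left _ hc)⟩

lemma eq_off {F F' A B : Finset Edg} (h : F \ A = F' \ A) (hd : ∀ e ∈ B, e ∉ A) :
    F ∩ B = F' ∩ B := by
  ext e
  simp only [Finset.mem_inter]
  have h1 : e ∈ F \ A ↔ e ∈ F' \ A := by rw [h]
  simp only [Finset.mem_sdiff] at h1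
  constructor
  · rintro ⟨h2, h3⟩
    exact ⟨(h1.mp ⟨h2, hd e h3⟩).1, h3⟩
  · rintro ⟨h2, h3⟩
    exact ⟨(h1.mpr ⟨h2, hd e h3⟩).1, h3⟩

lemma An_Bl {z : Vtx} {u : ℕ} : ∀ e ∈ An z u, e ∉ Bl z u := fun _ he => (Finset.mem_sdiff.mp he).2

lemma Gd_An {z : Vtx} {u : ℕ} (hu : 1 ≤ u) {F F' : Finset Edg} (h : F ∩ An z u = F' ∩ An z u) :
    Gd z u F ↔ Gd z u F' := ((t_LOC z u hu F F').1 h).1

/-- removal of the edges of the block -/
lemma out_sdiff {z : Vtx} {u : ℕ} (hu : 1 ≤ u) {F : Finset Edg} (hG : Gd z u F) {a b : Vtx}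
    (ha : 9 * u ≤ nv (a - z)) (hb : 9 * u ≤ nv (b - z)) (h : Reach (↑F) a b) :
    Reach (↑(F \ Bl z u)) a b := by
  have h0 : Gd z u (F \ Bl z u) := by
    rw [Gd_An hu (F' := F)]
    · exact hG
    · apply eq_off (A := Bl z u) _ An_Bl
      ext e
      simp only [Finset.mem_sdiff]
      tauto
  refine unwire_in (A := ↑(Bl z u)) (c := z) (R1 := 3 * u) (R2 := 9 * u) (by omega) h0 ?_ ha hb ?_
  · intro e he
    have h1 := bo_ends (Finset.mem_coe.mp he)
    omega
  · refine h.mono ?_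
    intro e he
    by_cases h1 : e ∈ Bl z u
    · exact Or.inr (Finset.mem_coe.mpr h1)
    · exact Or.inl (Finset.mem_coe.mpr (Finset.mem_sdiff.mpr ⟨Finset.mem_coe.mp he, h1⟩))

lemma out_iff {z : Vtx} {u : ℕ} (hu : 1 ≤ u) {F F' : Finset Edg} (hG : Gd z u F)
    (hFF : F \ Bl z u = F' \ Bl z u) {a b : Vtx}
    (ha : 9 * u ≤ nv (a - z)) (hb : 9 * u ≤ nv (b - z)) :
    Reach (↑F) a b ↔ Reach (↑F') a b := by
  have hG' : Gd z u F' := (Gd_An hu (eq_off hFF An_Bl)).mp hG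
  constructor
  · intro h
    have h1 := out_sdiff hu hG ha hb h
    rw [hFF] at h1
    exact h1.mono (by exact_mod_cast Finset.sdiff_subset)
  · intro h
    have h1 := out_sdiff hu hG' ha hb h
    rw [← hFF] at h1
    exact h1.mono (by exact_mod_cast Finset.sdiff_subset)

theorem t_OUT : S_OUT := by
  intro z u hu F F' hG hFF a b ha hb
  refine ⟨out_iff hu hG hFF ha hb, ?_⟩
  intro R hR
  rw [← Finset.coe_inter, ← Finset.coe_inter]
  apply out_iff hu _ _ ha hb
  · rw [Gd_An hu (F' := F)]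
    · exact hG
    · rw [Finset.inter_assoc, Finset.inter_eq_right.mpr ((An_sub z u).trans hR)]
  · have e1 : ∀ F : Finset Edg, (F ∩ boxE R) \ Bl z u = (F \ Bl z u) ∩ boxE R := by
      intro F
      ext e
      simp only [Finset.mem_sdiff, Finset.mem_inter]
      tauto
    rw [e1, e1, hFF]

theorem t_ATT : S_ATT := by
  intro o z u hu ho F F' hG hFF
  have hAn : F ∩ An z u = F' ∩ An z u := eq_off hFF An_Bl
  have hG' : Gd z u F' := (Gd_An hu hAn).mp hG
  constructor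
  · have key : ∀ F F' : Finset Edg, F ∩ An z u = F' ∩ An z u → Gd z u F →
        F \ Bl z u = F' \ Bl z u → att o z u F → att o z u F' := by
      rintro F F' hAn hG hFF ⟨_, w, h1, h2⟩
      refine ⟨(Gd_An hu hAn).mp hG, w, (rad_congr hAn w).mp h1, ?_⟩
      obtain ⟨h3, v, h4, h5⟩ := h1
      have h6 : Reach (↑F) o v := h2.trans (h5.mono Set.inter_subset_left)
      have h7 := (out_iff hu hG hFF ho.le h4).mp h6
      rw [inter_eq_coe hAn] at h5
      exact h7.trans (h5.symm.mono Set.inter_subset_left)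
    exact ⟨key F' F hAn.symm hG' hFF.symm, key F F' hAn hG hFF⟩
  · intro z' hz'
    have hd : ∀ e ∈ bo z' (9 * u), e ∉ Bl z u := by
      have h1 : Disjoint (bo z (2 * u)) (bo z' (9 * u)) := bo_disj (by omega)
      intro e he he'
      exact Finset.disjoint_left.mp h1 he' he
    have hbo : F ∩ bo z' (9 * u) = F' ∩ bo z' (9 * u) := eq_off hFF hd
    have hAn' : F ∩ An z' u = F' ∩ An z' u := inter_sub (An_sub z' u) hbo
    unfold att
    rw [Gd_An hu hAn']
    have h2 : ∀ w, Rad z' u F' w → 9 * u ≤ nv (w - z) := by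
      rintro w ⟨h3, _⟩
      have h4 := nv_tri z w z'
      have h5 := nv_symm z w
      omega
    constructor
    · rintro ⟨h3, w, h4, h5⟩
      exact ⟨h3, w, (rad_congr hAn' w).mpr h4, (out_iff hu hG hFF ho.le (h2 w h4)).mpr h5⟩
    · rintro ⟨h3, w, h4, h5⟩
      have h6 := (rad_congr hAn' w).mp h4
      exact ⟨h3, w, h6, (out_iff hu hG hFF ho.le (h2 w h6)).mp h5⟩

theorem t_GG : S_GG := by
  intro R o z u hu ho h1 h2 h3 F F' hG hFF
  have hfl : ∀ i, (fl R o i F ↔ fl R o i F') := by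
    have hcase : (F ∩ boxE R = F' ∩ boxE R) ∨ (-(R : ℤ) ≤ z.2 - 9 * u ∧ z.2 + 9 * u ≤ R) := by
      rcases h3 with h3 | h3 | h3
      · left
        apply eq_off hFF
        rintro ⟨x, y, _ | _⟩ h4 h5
        · simp only [boxE, Bl, bo, mem_RE_false] at h4 h5; push_cast at h5; omega
        · simp only [boxE, Bl, bo, mem_RE_true] at h4 h5; push_cast at h5; omega
      · exact Or.inr h3
      · left
        apply eq_off hFF
        rintro ⟨x, y, _ | _⟩ h4 h5
        · simp only [boxE, Bl, bo, mem_RE_false] at h4 h5; push_cast at h5; omega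
        · simp only [boxE, Bl, bo, mem_RE_true] at h4 h5; push_cast at h5; omega
    rcases hcase with hc | hc
    · intro i
      unfold fl
      rw [inter_eq_coe hc]
    · have hbo : bo z (9 * u) ⊆ boxE R := by
        rintro ⟨x, y, _ | _⟩ h4
        · simp only [boxE, bo, mem_RE_false] at h4 ⊢; push_cast at h4; omega
        · simp only [boxE, bo, mem_RE_true] at h4 ⊢; push_cast at h4; omega
      have key : ∀ v : Vtx, 9 * u ≤ nv (v - z) →
          (Reach (↑F ∩ ↑(boxE R)) o v ↔ Reach (↑F' ∩ ↑(boxE R)) o v) := fun v hv =>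
        (t_OUT z u hu F F' hG hFF o v ho hv).2 R hbo
      have hn : ∀ v : Vtx, (v.1 = (R : ℤ) ∨ v.1 = -(R : ℤ) ∨ v.2 = (R : ℤ) ∨ v.2 = -(R : ℤ)) →
          9 * u ≤ nv (v - z) := by
        intro v hv
        unfold nv
        simp only [Prod.fst_sub, Prod.snd_sub]
        omega
      intro i
      unfold fl
      constructor
      · rintro ⟨v, h4, h5⟩
        refine ⟨v, h4, (key v (hn v ?_)).mp h5⟩
        fin_cases i <;> simp only at h4 <;> tauto
      · rintro ⟨v, h4, h5⟩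
        refine ⟨v, h4, (key v (hn v ?_)).mpr h5⟩
        fin_cases i <;> simp only at h4 <;> tauto
  refine ⟨hfl, ?_⟩
  unfold gg nfl
  rw [ind_congr (hfl 0), Finset.sum_congr rfl fun i _ => ind_congr (hfl i)]

end Pool.Agent.Q239.FE
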