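import Pool.Agent.Q239.FE.B1

set_option autoImplicit false
set_option linter.unusedSectionVars false

/-! Job ADD of project FE. -/

namespace Pool.Agent.Q239.FE

open H974 hiding KK
open Finset Q78.FE Pool.Agent.H160R2.CV Pool.Agent.H160R2.CV.Quad H362P

/-- two radial points of an open gadget are connected in the annulus -/
lemma rad_conn {z : Vtx} {u : ℕ} (hu : 1 ≤ u) {F : Finset Edg} (hG : Gd z u F) {w w' : Vtx}
    (h : Rad z u F w) (h' : Rad z u F w') : Reach (↑F ∩ ↑(An z u)) w w' := by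
  have h1 : CA z (3 * u) (9 * u) (F ∩ An z u) := by
    have : Gd z u (F ∩ An z u) := by
      rw [Gd_An hu (F' := F)]
      · exact hG
      · rw [Finset.inter_assoc, Finset.inter_self]
    exact this
  obtain ⟨y, hy⟩ := CA_meet (by omega) h1
  obtain ⟨h2, v, h3, h4⟩ := h
  obtain ⟨h2', v', h3', h4'⟩ := h'
  have h5 := hy w v h2 h3 (by rw [Finset.coe_inter]; exact h4)
  have h6 := hy w' v' h2' h3' (by rw [Finset.coe_inter]; exact h4')
  rw [Finset.coe_inter] at h5 h6
  exact h5.trans h6.symm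

/-- the vertices counted by an attached gadget are in the cluster -/
lemma Hb_reach {o z : Vtx} {u : ℕ} (hu : 1 ≤ u) {F : Finset Edg} (hA : att o z u F) {v : Vtx}
    (hv : Hb z u F v) : Reach (↑F) o v := by
  obtain ⟨hG, w, h1, h2⟩ := hA
  obtain ⟨w', h3, h4⟩ := hv
  exact (h2.trans ((rad_conn hu hG h1 h3).mono Set.inter_subset_left)).trans
    (h4.mono Set.inter_subset_left)

lemma Hb_box {z : Vtx} {u : ℕ} {F : Finset Edg} {v : Vtx} (hv : Hb z u F v) :
    nv (v - z) ≤ 9 * u := by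
  obtain ⟨w', ⟨h3, _⟩, h4⟩ := hv
  exact reach_box (by omega) h4

lemma mem_bxz {z v : Vtx} {n : ℕ} : v ∈ bxz z n ↔ nv (v - z) ≤ n := by
  unfold bxz nv
  rw [Finset.mem_product, Finset.mem_Icc, Finset.mem_Icc]
  simp only [Prod.fst_sub, Prod.snd_sub]
  omega

open Classical in
/-- the vertices of the cluster which are not counted by the gadget -/
noncomputable def Rst (n : ℕ) (o z : Vtx) (u : ℕ) (F : Finset Edg) : Finset Vtx :=
  (bx n).filter (fun v => Reach (↑F) o v ∧ ¬ Hb z u F v)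

lemma Sz_sub {n : ℕ} {o z : Vtx} {u : ℕ} (hu : 1 ≤ u) (hb : bxz z (9 * u) ⊆ bx n)
    {F : Finset Edg} (hA : att o z u F) :
    (Sz n o F : ℝ) - Yz z u F = (Rst n o z u F).card := by
  classical
  have h1 : Yz z u F = (((bx n).filter (fun v => Hb z u F v)).card : ℝ) := by
    unfold Yz
    have h2 : ∀ v, ind (Hb z u F v) = if Hb z u F v then (1 : ℝ) else 0 := by
      intro v
      by_cases h : Hb z u F v
      · rw [ind_of h, if_pos h]
      · rw [ind_not_of h, if_neg h]
    rw [Finset.sum_congr rfl fun v _ => h2 v, ← Finset.sum_filter, Finset.sum_const, nsmul_eq_mul,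
      mul_one]
    congr 2
    ext v
    simp only [Finset.mem_filter]
    constructor
    · rintro ⟨h3, h4⟩
      exact ⟨hb h3, h4⟩
    · rintro ⟨_, h4⟩
      exact ⟨mem_bxz.mpr (Hb_box h4), h4⟩
  have h2 : Sz n o F = ((bx n).filter (fun v => Hb z u F v)).card + (Rst n o z u F).card := by
    unfold Sz Rst
    rw [← Finset.card_union_of_disjoint]
    · congr 1
      ext v
      simp only [Finset.mem_filter, Finset.mem_union]
      constructor
      · rintro ⟨h3, h4⟩
        by_cases h5 : Hb z u F v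
        · exact Or.inl ⟨h3, h5⟩
        · exact Or.inr ⟨h3, h4, h5⟩
      · rintro (⟨h3, h4⟩ | ⟨h3, h4, _⟩)
        · exact ⟨h3, Hb_reach hu hA h4⟩
        · exact ⟨h3, h4⟩
    · rw [Finset.disjoint_left]
      intro v h3 h4
      simp only [Finset.mem_filter] at h3 h4
      exact h4.2.2 h3.2
  rw [h1, h2]
  push_cast
  ring

lemma sdiff_An {z : Vtx} {u : ℕ} {F : Finset Edg} :
    (↑(F \ Bl z u) : Set Edg) ∩ ↑(bo z (9 * u)) = ↑F ∩ ↑(An z u) := by
  ext e
  unfold An Bl
  simp only [Set.mem_inter_iff, Finset.mem_coe, Finset.mem_sdiff]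
  tauto

/-- comparison with the configuration without the block -/
lemma rst_eq {n : ℕ} {o z : Vtx} {u : ℕ} (hu : 1 ≤ u) (ho : 9 * u < nv (o - z))
    {F : Finset Edg} (hA : att o z u F) :
    Rst n o z u F = Rst n o z u (F \ Bl z u) := by
  classical
  have hG := hA.1
  have hAn : F ∩ An z u = (F \ Bl z u) ∩ An z u := by
    apply eq_off (A := Bl z u) _ An_Bl
    ext e
    simp only [Finset.mem_sdiff]
    tauto
  have hsub : F \ Bl z u ⊆ F := Finset.sdiff_subset
  have hmono : ∀ v, Hb z u (F \ Bl z u) v → Hb z u F v :=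
    ((t_LOC z u hu _ _).2.2.2 hsub).2.2.2
  have hsd : F \ Bl z u = (F \ Bl z u) \ Bl z u := by
    ext e
    simp only [Finset.mem_sdiff]
    tauto
  have hout : ∀ v, 9 * u ≤ nv (v - z) → (Reach (↑F) o v ↔ Reach (↑(F \ Bl z u)) o v) := fun v hv =>
    out_iff hu hG hsd ho.le hv
  have hends : ∀ e ∈ (↑(Bl z u) : Set Edg), nv (src e - z) ≤ 2 * u ∧ nv (tgt e - z) ≤ 2 * u :=
    fun e he => bo_ends (Finset.mem_coe.mp he)
  have hcov : (↑F : Set Edg) ∩ ↑(bo z (9 * u)) ⊆
      ((↑(F \ Bl z u) : Set Edg) ∩ ↑(bo z (9 * u))) ∪ ↑(Bl z u) := by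
    intro e he
    by_cases h1 : e ∈ Bl z u
    · exact Or.inr (Finset.mem_coe.mpr h1)
    · exact Or.inl ⟨Finset.mem_coe.mpr (Finset.mem_sdiff.mpr ⟨Finset.mem_coe.mp he.1, h1⟩), he.2⟩
  ext v
  simp only [Rst, Finset.mem_filter]
  constructor
  · rintro ⟨h1, h2, h3⟩
    refine ⟨h1, ?_, fun h4 => h3 (hmono v h4)⟩
    by_cases h4 : 9 * u ≤ nv (v - z)
    · exact (hout v h4).mp h2
    · obtain ⟨v1, h5, h6⟩ := fexit (z := z) (m := 9 * u) (x := v) (y := o) (by omega) ho.le h2.symm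
      have h7 : Reach (↑F) o v1 := h2.trans (h6.mono Set.inter_subset_left)
      rcases hit_or (T := fun w => nv (w - z) ≤ 2 * u) hends (h6.mono hcov) with h8 | ⟨w, h8, h9⟩
      · exact ((hout v1 h5.ge).mp h7).trans (h8.symm.mono Set.inter_subset_left)
      · exfalso
        apply h3
        have h10 : Reach ((↑F : Set Edg) ∩ ↑(bo z (9 * u))) v w :=
          h9.mono (Set.inter_subset_inter_left _ (by exact_mod_cast hsub))
        obtain ⟨w2, h11, h12⟩ := lexit h8 (h10.symm.trans h6)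
        refine ⟨w2, ⟨by omega, v1, h5.ge, h12.mono ?_⟩, ?_⟩
        · rintro e ⟨⟨h13, h14⟩, h15⟩
          exact ⟨h13, Finset.mem_coe.mpr (Finset.mem_sdiff.mpr
            ⟨Finset.mem_coe.mp h14, fun h => h15 (Finset.mem_coe.mpr h)⟩)⟩
        · exact (h12.mono Set.sdiff_subset).trans h6.symm
  · rintro ⟨h1, h2, h3⟩
    refine ⟨h1, h2.mono (by exact_mod_cast hsub), ?_⟩
    intro h4
    obtain ⟨v1, h5, h6⟩ := fexit (z := z) (m := 9 * u) (x := v) (y := o) (Hb_box h4) ho.le h2.symm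
    obtain ⟨w, h7, h8⟩ := h4
    rcases hit_or (T := fun w => nv (w - z) ≤ 2 * u) hends (h8.symm.mono hcov) with h9 | ⟨w', h9, h10⟩
    · exact h3 ⟨w, (rad_congr hAn w).mp h7, h9.symm⟩
    · apply h3
      refine ⟨w', ⟨by omega, v1, h5.ge, ?_⟩, h10.symm⟩
      have h11 := h10.symm.trans h6
      rw [sdiff_An] at h11
      rw [← inter_eq_coe hAn]
      exact h11

theorem t_ADD : S_ADD := by
  intro n o z u hu ho hb F F' hA hFF
  have hA' : att o z u F' := ((t_ATT o z u hu ho F F' hA.1 hFF).1).mpr hA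
  rw [Sz_sub hu hb hA, Sz_sub hu hb hA', rst_eq hu ho hA, rst_eq hu ho hA', hFF]

end Pool.Agent.Q239.FE
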