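import Pool.Agent.Q239.FE.B2

set_option autoImplicit false
set_option linter.unusedSectionVars false

/-! Job INTJ of project FE. -/

namespace Pool.Agent.Q239.FE

open H974 hiding KK
open Finset Q78.FE Pool.Agent.H160R2.CV Pool.Agent.H160R2.CV.Quad H362P

lemma gg_nonneg (R : ℕ) (o : Vtx) (F : Finset Edg) : 0 ≤ gg R o F := by
  unfold gg nfl
  exact div_nonneg (ind_nonneg _) (Finset.sum_nonneg fun i _ => ind_nonneg _)

/-- the position of the centres of the gadgets -/
lemma Jz_pos {s u : ℕ} {z : Vtx} (hz : z ∈ Jz s u) :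
    (∃ i j : ℤ, z = (20 * (u : ℤ) * i + 10 * u, 20 * (u : ℤ) * j + 10 * u)) ∧
    (s : ℤ) + 9 * u ≤ z.1 ∧ z.1 + 9 * u ≤ 5 * s ∧ -(9 * (s : ℤ)) + 9 * u ≤ z.2 ∧
    z.2 + 9 * u ≤ 9 * s := by
  classical
  unfold Jz at hz
  rw [Finset.mem_filter] at hz
  exact hz.2

lemma lat_gap {u : ℕ} {i j : ℤ} (h : i ≠ j) :
    20 * (u : ℤ) ≤ 20 * (u : ℤ) * i - 20 * (u : ℤ) * j ∨
      20 * (u : ℤ) * i - 20 * (u : ℤ) * j ≤ -(20 * (u : ℤ)) := by
  have hu : (0 : ℤ) ≤ u := by positivity
  rcases lt_or_gt_of_ne h with h1 | h1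
  · right
    have h2 : i - j ≤ -1 := by omega
    have h3 : 20 * (u : ℤ) * (i - j) ≤ 20 * (u : ℤ) * (-1) :=
      mul_le_mul_of_nonneg_left h2 (by positivity)
    linarith [mul_sub (20 * (u : ℤ)) i j]
  · left
    have h2 : 1 ≤ i - j := by omega
    have h3 : 20 * (u : ℤ) * 1 ≤ 20 * (u : ℤ) * (i - j) :=
      mul_le_mul_of_nonneg_left h2 (by positivity)
    linarith [mul_sub (20 * (u : ℤ)) i j]

lemma Jz_far {s u : ℕ} (_hu : 1 ≤ u) {z z' : Vtx} (hz : z ∈ Jz s u) (hz' : z' ∈ Jz s u)
    (h : z ≠ z') : 20 * u ≤ nv (z - z') := by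
  obtain ⟨⟨i, j, rfl⟩, _⟩ := Jz_pos hz
  obtain ⟨⟨i', j', rfl⟩, _⟩ := Jz_pos hz'
  unfold nv
  simp only [Prod.fst_sub, Prod.snd_sub]
  by_cases hi : i = i'
  · have hj : j ≠ j' := fun hj => h (by rw [hi, hj])
    have := lat_gap (u := u) hj
    omega
  · have := lat_gap (u := u) hi
    omega

/-- the heights of the centres are far from the multiples of `20 u` -/
lemma lat_half {u : ℕ} (i j : ℤ) :
    20 * (u : ℤ) * i + 10 * u ≥ 20 * (u : ℤ) * j + 10 * u ∨
      20 * (u : ℤ) * i + 10 * u ≤ 20 * (u : ℤ) * j - 10 * u := by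
  have hu : (0 : ℤ) ≤ u := by positivity
  rcases lt_or_ge i j with h1 | h1
  · right
    have h2 : i - j ≤ -1 := by omega
    have h3 : 20 * (u : ℤ) * (i - j) ≤ 20 * (u : ℤ) * (-1) :=
      mul_le_mul_of_nonneg_left h2 (by positivity)
    linarith [mul_sub (20 * (u : ℤ)) i j]
  · left
    have h3 : 20 * (u : ℤ) * j ≤ 20 * (u : ℤ) * i :=
      mul_le_mul_of_nonneg_left h1 (by positivity)
    linarith

lemma Yz_congr {z : Vtx} {u : ℕ} (hu : 1 ≤ u) {F F' : Finset Edg}
    (h : F ∩ bo z (9 * u) = F' ∩ bo z (9 * u)) : Yz z u F = Yz z u F' := by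
  unfold Yz
  exact Finset.sum_congr rfl fun v _ => ind_congr ((t_LOC z u hu F F').2.2.1 h v)

theorem t_INTJ (bint : S_BINT) : S_INTJ := by
  classical
  intro p θ s u n o h0 h1 hu hs hn ho q hq0 hq
  have hok : Ok (fun _ : Edg => p) := fun _ => ⟨h0, h1⟩
  have hBl : ∀ z ∈ Jz s u, Bl z u ⊆ LRE s (5 * s) (-(9 * (s : ℤ))) (9 * s) := by
    intro z hz
    obtain ⟨_, h2, h3, h4, h5⟩ := Jz_pos hz
    rintro ⟨x, y, _ | _⟩ he
    · simp only [Bl, bo, mem_RE_false, mem_LRE_false] at he ⊢; push_cast at he; omega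
    · simp only [Bl, bo, mem_RE_true, mem_LRE_true] at he ⊢; push_cast at he; omega
  have hbox : ∀ z ∈ Jz s u, Bl z u ⊆ boxE n := by
    intro z hz
    obtain ⟨_, h2, h3, h4, h5⟩ := Jz_pos hz
    rintro ⟨x, y, _ | _⟩ he
    · simp only [Bl, bo, boxE, mem_RE_false] at he ⊢; push_cast at he; omega
    · simp only [Bl, bo, boxE, mem_RE_true] at he ⊢; push_cast at he; omega
  have key := bint (fun _ : Edg => p) hok (boxE n) (Jz s u) (fun z => Bl z u) hbox
    (fun z hz z' hz' hne => by
      have := Jz_far hu hz hz' hne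
      exact bo_disj (by omega))
    (fun F => q F * gg (8 * s) o F) (fun F => (Sz n o F : ℝ)) (fun z F => Yz z u F)
    (fun z F => att o z u F)
    (by
      intro z hz F F' _ _ hFF hA
      obtain ⟨⟨i, j, hij⟩, h2, h3, h4, h5⟩ := Jz_pos hz
      have hoz : 9 * u < nv (o - z) := by
        unfold nv
        simp only [Prod.fst_sub, Prod.snd_sub]
        omega
      have hG := hA.1
      have hA' : att o z u F' := ((t_ATT o z u hu hoz F F' hG hFF).1).mpr hA
      refine ⟨hA', ?_, ?_, ?_⟩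
      · have e1 : q F' = q F := by
          rw [hq F', hq F]
          congr 1
          have hL := hBl z hz
          ext e
          simp only [Finset.mem_sdiff]
          have h6 : e ∈ F \ Bl z u ↔ e ∈ F' \ Bl z u := by rw [hFF]
          simp only [Finset.mem_sdiff] at h6
          constructor
          · rintro ⟨h7, h8⟩
            exact ⟨(h6.mpr ⟨h7, fun h => h8 (hL h)⟩).1, h8⟩
          · rintro ⟨h7, h8⟩
            exact ⟨(h6.mp ⟨h7, fun h => h8 (hL h)⟩).1, h8⟩
        have e2 : gg (8 * s) o F' = gg (8 * s) o F := by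
          refine ((t_GG (8 * s) o z u hu hoz.le ?_ ?_ ?_ F F' hG hFF).2).symm
          · push_cast; omega
          · push_cast; omega
          · obtain ⟨k, hk⟩ := hs
            have hz2 : z.2 = 20 * (u : ℤ) * j + 10 * u := by rw [hij]
            have hs' : (s : ℤ) = 20 * (u : ℤ) * k := by rw [hk]; push_cast; ring
            have l1 := lat_half (u := u) j (8 * k)
            have l2 := lat_half (u := u) j (-(8 * k))
            have e3 : 20 * (u : ℤ) * (8 * k) = 8 * s := by rw [hs']; ring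
            have e4 : 20 * (u : ℤ) * (-(8 * k)) = -(8 * s) := by rw [hs']; ring
            rw [e3] at l1
            rw [e4] at l2
            push_cast
            omega
        change q F' * gg (8 * s) o F' = q F * gg (8 * s) o F
        rw [e1, e2]
      · refine t_ADD n o z u hu hoz ?_ F F' hA hFF
        intro v hv
        rw [mem_bxz] at hv
        unfold nv at hv
        simp only [Prod.fst_sub, Prod.snd_sub] at hv
        unfold bx
        rw [Finset.mem_product, Finset.mem_Icc, Finset.mem_Icc]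
        omega
      · intro z' hz' hne
        have hfar := Jz_far hu hz hz' (Ne.symm hne)
        have hd : ∀ e ∈ bo z' (9 * u), e ∉ Bl z u := by
          have h6 : Disjoint (bo z (2 * u)) (bo z' (9 * u)) := bo_disj (by omega)
          intro e he he'
          exact Finset.disjoint_left.mp h6 he' he
        have hbo : F ∩ bo z' (9 * u) = F' ∩ bo z' (9 * u) := eq_off hFF hd
        refine ⟨(t_ATT o z u hu hoz F F' hG hFF).2 z' (by omega), Yz_congr hu hbo.symm, ?_⟩
        intro G _
        apply Yz_congr hu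
        ext e
        have h7 : e ∈ F ∩ bo z' (9 * u) ↔ e ∈ F' ∩ bo z' (9 * u) := by rw [hbo]
        simp only [Finset.mem_inter] at h7
        simp only [Finset.mem_inter, Finset.mem_union, Finset.mem_sdiff]
        tauto) θ
  refine key.trans (le_of_eq ?_)
  apply Ex_congr
  intro F _
  rw [abs_of_nonneg (mul_nonneg (hq0 F) (gg_nonneg _ _ _))]
  congr 1

end Pool.Agent.Q239.FE
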