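import Pool.Agent.Q78.FE.Stm

set_option autoImplicit false
set_option linter.unusedSectionVars false

/-! Jobs REG, OPEN, LOCT, PATH, CONN of project FE: the exploration of a rectangle. -/

namespace Pool.Agent.Q239.FE

open H974 hiding KK
open Finset Q78.FE

/-- a set of faces closed under steps of a path -/
lemma dr_closed {G : Set Edg} {P : Vtx → Prop} (hP : ∀ f g, P f → DAdj G f g → P g) {f0 f : Vtx}
    (h : DReach G f0 f) (h0 : P f0) : P f ∧ DReach (G ∩ {e | P (dsrc e) ∧ P (dtgt e)}) f0 f := by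
  induction h with
  | refl => exact ⟨h0, DReach.refl _ _⟩
  | @tail g g' _ hs ih =>
    obtain ⟨ih1, ih2⟩ := ih
    have h1 := hP g g' ih1 hs
    refine ⟨h1, ih2.trans (DAdj.reach ?_)⟩
    obtain ⟨e, he, hc⟩ := hs
    refine ⟨e, ⟨he, ?_⟩, hc⟩
    rcases hc with ⟨h3, h4⟩ | ⟨h3, h4⟩
    · change P (dsrc e) ∧ P (dtgt e)
      rw [h3, h4]
      exact ⟨ih1, h1⟩
    · change P (dsrc e) ∧ P (dtgt e)
      rw [h3, h4]
      exact ⟨h1, ih1⟩

/-- a path in a column -/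
lemma dr_vert {G : Set Edg} {x y y' : ℤ} (h : y ≤ y')
    (hG : ∀ z, y < z → z ≤ y' → ((x, z, true) : Edg) ∈ G) : DReach G (x, y) (x, y') := by
  induction y', h using Int.leInduction with
  | base => exact DReach.refl _ _
  | succ n hn ih =>
    refine (ih fun z h1 h2 => hG z h1 (by omega)).trans (DAdj.reach ⟨(x, n + 1, true), hG _ (by omega) le_rfl, ?_⟩)
    left
    simp

/-- a change of a predicate in an interval -/
lemma exists_trans {P : ℤ → Prop} {y0 y1 : ℤ} (h : y0 ≤ y1) (h0 : ¬ P y0) (h1 : P y1) :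
    ∃ y, y0 < y ∧ y ≤ y1 ∧ ¬ P (y - 1) ∧ P y := by
  induction y1, h using Int.leInduction with
  | base => exact absurd h1 h0
  | succ n hn ih =>
    by_cases h2 : P n
    · obtain ⟨y, h3, h4, h5, h6⟩ := ih h2
      exact ⟨y, h3, by omega, h5, h6⟩
    · refine ⟨n + 1, by omega, le_rfl, ?_, h1⟩
      rwa [add_sub_cancel_right]

variable {a b c d : ℤ}

/-- the position of the sides of an edge -/
lemma sides {e : Edg} (he : e ∈ LRE a b c d) :
    (a ≤ (dsrc e).1 ∧ (dsrc e).1 < b ∧ c - 1 ≤ (dsrc e).2 ∧ (dsrc e).2 ≤ d) ∧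
    (a ≤ (dtgt e).1 ∧ (dtgt e).1 < b ∧ c - 1 ≤ (dtgt e).2 ∧ (dtgt e).2 ≤ d) := by
  obtain ⟨x, y, _ | _⟩ := e
  · rw [mem_LRE_false] at he
    simp only [dsrc_false, dtgt_mk]
    omega
  · rw [mem_LRE_true] at he
    simp only [dsrc_true, dtgt_mk]
    omega

lemma mem_T0 {f : Vtx} : f ∈ T0 a b c d ↔ (a ≤ f.1 ∧ f.1 < b) ∧ c ≤ f.2 ∧ f.2 ≤ d := by
  unfold T0
  rw [Finset.mem_product, Finset.mem_Ico, Finset.mem_Icc]

lemma mem_inT {T : Finset Vtx} {e : Edg} :
    e ∈ inT a b c d T ↔ e ∈ LRE a b c d ∧ dsrc e ∈ T ∧ dtgt e ∈ T := by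
  unfold inT
  rw [Finset.mem_filter]

lemma mem_exT {T : Finset Vtx} {e : Edg} :
    e ∈ exT a b c d T ↔ e ∈ LRE a b c d ∧ dsrc e ∉ T ∧ dtgt e ∉ T := by
  unfold exT
  rw [Finset.mem_filter]

lemma mem_bdT {T : Finset Vtx} {e : Edg} :
    e ∈ bdT a b c d T ↔ e ∈ LRE a b c d ∧ ¬ (dsrc e ∈ T ↔ dtgt e ∈ T) := by
  unfold bdT
  rw [Finset.mem_filter]

lemma inT_mono {T T' : Finset Vtx} (h : T' ⊆ T) : inT a b c d T' ⊆ inT a b c d T := by
  intro e he
  rw [mem_inT] at he ⊢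
  exact ⟨he.1, h he.2.1, h he.2.2⟩

lemma exT_mono {T T' : Finset Vtx} (h : T' ⊆ T) : exT a b c d T ⊆ exT a b c d T' := by
  intro e he
  rw [mem_exT] at he ⊢
  exact ⟨he.1, fun h1 => he.2.1 (h h1), fun h1 => he.2.2 (h h1)⟩

lemma mem_KK {T : Finset Vtx} {F : Finset Edg} {f : Vtx} : f ∈ KK a b c d T F ↔ f ∈ T ∧
    ∃ f0 ∈ T, (∃ e ∈ bdT a b c d T, dsrc e = f0 ∨ dtgt e = f0) ∧
    DReach (↑(inT a b c d T) \ ↑F) f0 f := by
  classical
  unfold KK
  rw [Finset.mem_filter]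

lemma mem_PH {T : Finset Vtx} {F : Finset Edg} {f : Vtx} : f ∈ PH a b c d T F ↔
    f ∈ T \ KK a b c d T F ∧ ∃ x : ℤ, a ≤ x ∧ x < b ∧
    (x, d) ∈ T \ KK a b c d T F ∧
    DReach (↑(inT a b c d (T \ KK a b c d T F))) (x, d) f := by
  classical
  unfold PH
  rw [Finset.mem_filter]

lemma KK_bd {T : Finset Vtx} {F : Finset Edg} {f : Vtx} (hf : f ∈ T) {e : Edg}
    (he : e ∈ bdT a b c d T) (h : dsrc e = f ∨ dtgt e = f) : f ∈ KK a b c d T F :=
  mem_KK.mpr ⟨hf, f, hf, ⟨e, he, h⟩, DReach.refl _ _⟩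

lemma KK_step {T : Finset Vtx} {F : Finset Edg} {f g : Vtx} (hf : f ∈ KK a b c d T F)
    (h : DAdj (↑(inT a b c d T) \ ↑F) f g) : g ∈ KK a b c d T F := by
  obtain ⟨h1, f0, h2, h3, h4⟩ := mem_KK.mp hf
  have hg : g ∈ T := by
    obtain ⟨e, he, hc⟩ := h
    have h5 := (mem_inT.mp (Finset.mem_coe.mp he.1)).2
    rcases hc with ⟨h6, h7⟩ | ⟨h6, h7⟩
    · rw [← h7]; exact h5.2
    · rw [← h6]; exact h5.1
  exact mem_KK.mpr ⟨hg, f0, h2, h3, h4.trans h.reach⟩

/-- a face of `KK` is connected inside `KK` to a face next to the boundary -/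
lemma KK_path {T : Finset Vtx} {F : Finset Edg} {f : Vtx} (hf : f ∈ KK a b c d T F) :
    ∃ f0 ∈ KK a b c d T F, (∃ e ∈ bdT a b c d T, dsrc e = f0 ∨ dtgt e = f0) ∧
    DReach ((↑(inT a b c d T) \ ↑F) ∩ {e | dsrc e ∈ KK a b c d T F ∧ dtgt e ∈ KK a b c d T F}) f0 f := by
  obtain ⟨h1, f0, h2, ⟨e, he, h3⟩, h4⟩ := mem_KK.mp hf
  have h5 : f0 ∈ KK a b c d T F := KK_bd h2 he h3
  exact ⟨f0, h5, ⟨e, he, h3⟩, (dr_closed (P := fun g => g ∈ KK a b c d T F)
    (fun f g hf hfg => KK_step hf hfg) h4 h5).2⟩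

lemma PH_sub {T : Finset Vtx} {F : Finset Edg} : PH a b c d T F ⊆ T := by
  intro f hf
  exact (Finset.mem_sdiff.mp (mem_PH.mp hf).1).1

lemma PH_KK {T : Finset Vtx} {F : Finset Edg} {f : Vtx} (hf : f ∈ PH a b c d T F) :
    f ∉ KK a b c d T F := (Finset.mem_sdiff.mp (mem_PH.mp hf).1).2

lemma PH_step {T : Finset Vtx} {F : Finset Edg} {f g : Vtx} (hf : f ∈ PH a b c d T F)
    (h : DAdj (↑(inT a b c d (T \ KK a b c d T F))) f g) : g ∈ PH a b c d T F := by
  obtain ⟨h1, x, h2, h3, h4, h5⟩ := mem_PH.mp hf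
  have hg : g ∈ T \ KK a b c d T F := by
    obtain ⟨e, he, hc⟩ := h
    have h5 := (mem_inT.mp (Finset.mem_coe.mp he)).2
    rcases hc with ⟨h6, h7⟩ | ⟨h6, h7⟩
    · rw [← h7]; exact h5.2
    · rw [← h6]; exact h5.1
  exact mem_PH.mpr ⟨hg, x, h2, h3, h4, h5.trans h.reach⟩

lemma Alive_mono {j k : ℕ} {F : Finset Edg} (h : Alive a b c d k F) (hjk : j ≤ k) :
    Alive a b c d j F := fun i hi => h i (by omega)

lemma reg_zero : Reg a b c d (T0 a b c d) ∨ ¬ (a < b ∧ c ≤ d) := by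
  by_cases h : a < b ∧ c ≤ d
  · left
    obtain ⟨hab, hcd⟩ := h
    refine ⟨Finset.Subset.refl _, ?_, ?_, ?_⟩
    · intro x h1 h2
      rw [mem_T0]
      exact ⟨⟨h1, h2⟩, hcd, le_rfl⟩
    · rintro ⟨x, y⟩ hf
      rw [mem_T0] at hf
      obtain ⟨⟨h1, h2⟩, h3, h4⟩ := hf
      refine ⟨x, h1, h2, ?_⟩
      apply DReach.symm
      apply dr_vert h4
      intro z h5 h6
      simp only at h1 h2 h3 h4 h5
      rw [Finset.mem_coe, mem_inT, mem_LRE_true, dsrc_true, dtgt_mk, mem_T0, mem_T0]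
      simp only
      omega
    · rintro ⟨x, y⟩ h1 h2 h3 h4 h5
      rw [mem_T0] at h5
      simp only at h1 h2 h3 h4 h5
      have h6 : y = c - 1 := by
        by_contra h7
        exact h5 ⟨⟨h1, h2⟩, by omega, h4⟩
      refine ⟨x, h1, h2, ?_⟩
      rw [h6]
      exact DReach.refl _ _
  · exact Or.inr h

lemma reg_step {T : Finset Vtx} {F : Finset Edg} (hT : Reg a b c d T)
    (hal : ∀ x : ℤ, a ≤ x → x < b → (x, d) ∉ KK a b c d T F) :
    Reg a b c d (PH a b c d T F) := by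
  refine ⟨PH_sub.trans hT.sub, ?_, ?_, ?_⟩
  · intro x h1 h2
    have h3 : (x, d) ∈ T \ KK a b c d T F := Finset.mem_sdiff.mpr ⟨hT.top x h1 h2, hal x h1 h2⟩
    exact mem_PH.mpr ⟨h3, x, h1, h2, h3, DReach.refl _ _⟩
  · intro f hf
    obtain ⟨h1, x, h2, h3, h4, h5⟩ := mem_PH.mp hf
    refine ⟨x, h2, h3, ?_⟩
    have h6 : (x, d) ∈ PH a b c d T F := mem_PH.mpr ⟨h4, x, h2, h3, h4, DReach.refl _ _⟩
    have h7 := (dr_closed (P := fun g => g ∈ PH a b c d T F)
      (fun f g hf hfg => PH_step hf hfg) h5 h6).2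
    refine h7.mono ?_
    rintro e ⟨he1, he2, he3⟩
    rw [Finset.mem_coe, mem_inT]
    exact ⟨(mem_inT.mp (Finset.mem_coe.mp he1)).1, he2, he3⟩
  · -- the complement
    have hi : ∀ f : Vtx, a ≤ f.1 → f.1 < b → c - 1 ≤ f.2 → f.2 ≤ d → f ∉ T →
        ∃ x : ℤ, a ≤ x ∧ x < b ∧ DReach (↑(exT a b c d (PH a b c d T F))) (x, c - 1) f := by
      intro f h1 h2 h3 h4 h5
      obtain ⟨x, h6, h7, h8⟩ := hT.conC f h1 h2 h3 h4 h5
      refine ⟨x, h6, h7, h8.mono ?_⟩
      exact_mod_cast exT_mono PH_sub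
    have hii : ∀ f : Vtx, f ∈ KK a b c d T F →
        ∃ x : ℤ, a ≤ x ∧ x < b ∧ DReach (↑(exT a b c d (PH a b c d T F))) (x, c - 1) f := by
      intro f hf
      obtain ⟨f0, h0, ⟨e, he, hef⟩, hp⟩ := KK_path hf
      have hf0T : f0 ∈ T := (mem_KK.mp h0).1
      obtain ⟨he1, he2⟩ := mem_bdT.mp he
      have hs := sides he1
      have hf0 : f0 ∉ PH a b c d T F := fun h => PH_KK h h0
      -- the other side
      have hx : ∃ x : ℤ, a ≤ x ∧ x < b ∧
          DReach (↑(exT a b c d (PH a b c d T F))) (x, c - 1) f0 := by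
        rcases hef with h1 | h1
        · have h2 : dtgt e ∉ T := by
            intro h3
            exact he2 ⟨fun _ => h3, fun _ => by rw [h1]; exact hf0T⟩
          obtain ⟨x, h3, h4, h5⟩ := hi _ hs.2.1 hs.2.2.1 hs.2.2.2.1 hs.2.2.2.2 h2
          refine ⟨x, h3, h4, h5.trans (DAdj.reach ⟨e, ?_, Or.inr ⟨h1, rfl⟩⟩)⟩
          rw [Finset.mem_coe, mem_exT, h1]
          exact ⟨he1, hf0, fun h6 => h2 (PH_sub h6)⟩
        · have h2 : dsrc e ∉ T := by
            intro h3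
            exact he2 ⟨fun _ => by rw [h1]; exact hf0T, fun _ => h3⟩
          obtain ⟨x, h3, h4, h5⟩ := hi _ hs.1.1 hs.1.2.1 hs.1.2.2.1 hs.1.2.2.2 h2
          refine ⟨x, h3, h4, h5.trans (DAdj.reach ⟨e, ?_, Or.inl ⟨rfl, h1⟩⟩)⟩
          rw [Finset.mem_coe, mem_exT, h1]
          exact ⟨he1, fun h6 => h2 (PH_sub h6), hf0⟩
      obtain ⟨x, h3, h4, h5⟩ := hx
      refine ⟨x, h3, h4, h5.trans (hp.mono ?_)⟩
      rintro e' ⟨⟨h6, _⟩, h7, h8⟩
      rw [Finset.mem_coe, mem_exT]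
      exact ⟨(mem_inT.mp (Finset.mem_coe.mp h6)).1, fun h => PH_KK h h7, fun h => PH_KK h h8⟩
    have key : ∀ n : ℕ, ∀ f : Vtx, a ≤ f.1 → f.1 < b → c - 1 ≤ f.2 → f.2 ≤ d →
        (f.2 - (c - 1)).toNat = n → f ∉ PH a b c d T F →
        ∃ x : ℤ, a ≤ x ∧ x < b ∧ DReach (↑(exT a b c d (PH a b c d T F))) (x, c - 1) f := by
      intro n
      induction n with
      | zero =>
        rintro ⟨x, y⟩ h1 h2 h3 h4 h5 h6
        simp only at h1 h2 h3 h4 h5
        have h7 : y = c - 1 := by omega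
        refine ⟨x, h1, h2, ?_⟩
        rw [h7]
        exact DReach.refl _ _
      | succ n ih =>
        rintro ⟨x, y⟩ h1 h2 h3 h4 h5 h6
        simp only at h1 h2 h3 h4 h5
        by_cases hT1 : (x, y) ∈ T
        · by_cases hK1 : (x, y) ∈ KK a b c d T F
          · exact hii _ hK1
          · have he : ((x, y, true) : Edg) ∈ LRE a b c d := by
              rw [mem_LRE_true]
              omega
            have hg : (x, y - 1) ∉ PH a b c d T F := by
              intro hg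
              apply h6
              refine PH_step hg ⟨(x, y, true), ?_, Or.inl ⟨by simp, by simp⟩⟩
              rw [Finset.mem_coe, mem_inT, dsrc_true, dtgt_mk]
              exact ⟨he, (mem_PH.mp hg).1, Finset.mem_sdiff.mpr ⟨hT1, hK1⟩⟩
            obtain ⟨x', h7, h8, h9⟩ := ih (x, y - 1) h1 h2 (by simp only; omega) (by simp only; omega)
              (by simp only; omega) hg
            refine ⟨x', h7, h8, h9.trans (DAdj.reach ⟨(x, y, true), ?_, Or.inl ⟨by simp, by simp⟩⟩)⟩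
            rw [Finset.mem_coe, mem_exT, dsrc_true, dtgt_mk]
            exact ⟨he, hg, h6⟩
        · exact hi _ h1 h2 h3 h4 hT1
    intro f h1 h2 h3 h4 h5
    exact key _ f h1 h2 h3 h4 rfl h5

theorem t_REG : S_REG := by
  intro a b c d hab hcd F j
  induction j with
  | zero =>
    intro _
    rcases reg_zero (a := a) (b := b) (c := c) (d := d) with h | h
    · exact h
    · exact absurd ⟨hab, hcd⟩ h
  | succ j ih =>
    intro h
    exact reg_step (ih (Alive_mono h (Nat.le_succ j))) (h j (Nat.lt_succ_self j))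

/-- a face of `KK` -/
lemma exists_KK {T : Finset Vtx} {F : Finset Edg} (hab : a < b) (hcd : c ≤ d)
    (hT : Reg a b c d T) : ∃ f ∈ T, f ∈ KK a b c d T F := by
  have h1 : ((a, c - 1) : Vtx) ∉ T := by
    intro h
    have := hT.sub h
    rw [mem_T0] at this
    simp only at this
    omega
  obtain ⟨y, h2, h3, h4, h5⟩ := exists_trans (P := fun y => ((a, y) : Vtx) ∈ T)
    (y0 := c - 1) (y1 := d) (by omega) h1 (hT.top a le_rfl hab)
  refine ⟨(a, y), h5, KK_bd h5 (e := (a, y, true)) ?_ (Or.inr rfl)⟩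
  rw [mem_bdT, mem_LRE_true, dsrc_true, dtgt_mk]
  refine ⟨by omega, fun h => h4 (h.mpr h5)⟩

theorem t_OPEN : S_OPEN := by
  intro a b c d hab hcd F j
  have h2 : ∀ j, Alive a b c d j F → Tn a b c d F (j + 1) ⊂ Tn a b c d F j := by
    intro j hal
    have hR := t_REG a b c d hab hcd F j hal
    obtain ⟨f, hf1, hf2⟩ := exists_KK (F := F) hab hcd hR
    refine Finset.ssubset_iff_subset_ne.mpr ⟨PH_sub, fun h => ?_⟩
    have h3 : f ∈ PH a b c d (Tn a b c d F j) F := by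
      have : Tn a b c d F (j + 1) = PH a b c d (Tn a b c d F j) F := rfl
      rw [← this, h]
      exact hf1
    exact PH_KK h3 hf2
  refine ⟨?_, h2 j, ?_⟩
  · intro e he
    obtain ⟨he1, he2⟩ := mem_bdT.mp he
    change ¬ (dsrc e ∈ PH a b c d (Tn a b c d F j) F ↔ dtgt e ∈ PH a b c d (Tn a b c d F j) F) at he2
    set T := Tn a b c d F j with hT
    by_contra heF
    -- both sides are symmetric
    have key : ∀ f g : Vtx, (dsrc e = f ∧ dtgt e = g ∨ dsrc e = g ∧ dtgt e = f) →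
        f ∈ PH a b c d T F → g ∈ PH a b c d T F := by
      intro f g hfg hf
      have hfT : f ∈ T := PH_sub hf
      have hfK : f ∉ KK a b c d T F := PH_KK hf
      by_cases hgT : g ∈ T
      · have hin : e ∈ inT a b c d T := by
          rw [mem_inT]
          rcases hfg with ⟨h1, h2⟩ | ⟨h1, h2⟩
          · rw [h1, h2]; exact ⟨he1, hfT, hgT⟩
          · rw [h1, h2]; exact ⟨he1, hgT, hfT⟩
        by_cases hgK : g ∈ KK a b c d T F
        · exfalso
          apply hfK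
          apply KK_step hgK
          refine ⟨e, ⟨Finset.mem_coe.mpr hin, fun h => heF (Finset.mem_coe.mp h)⟩, ?_⟩
          exact hfg.symm
        · apply PH_step hf
          refine ⟨e, ?_, hfg⟩
          rw [Finset.mem_coe, mem_inT]
          rcases hfg with ⟨h1, h2⟩ | ⟨h1, h2⟩
          · rw [h1, h2]
            exact ⟨he1, Finset.mem_sdiff.mpr ⟨hfT, hfK⟩, Finset.mem_sdiff.mpr ⟨hgT, hgK⟩⟩
          · rw [h1, h2]
            exact ⟨he1, Finset.mem_sdiff.mpr ⟨hgT, hgK⟩, Finset.mem_sdiff.mpr ⟨hfT, hfK⟩⟩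
      · exfalso
        apply hfK
        apply KK_bd hfT (e := e)
        · rw [mem_bdT]
          rcases hfg with ⟨h1, h2⟩ | ⟨h1, h2⟩
          · rw [h1, h2]; exact ⟨he1, fun h => hgT (h.mp hfT)⟩
          · rw [h1, h2]; exact ⟨he1, fun h => hgT (h.mpr hfT)⟩
        · rcases hfg with ⟨h1, h2⟩ | ⟨h1, h2⟩
          · exact Or.inl h1
          · exact Or.inr h2
    exact he2 ⟨key _ _ (Or.inl ⟨rfl, rfl⟩), key _ _ (Or.inr ⟨rfl, rfl⟩)⟩
  · have h3 : ∀ j, Alive a b c d j F → (Tn a b c d F j).card + j ≤ (T0 a b c d).card := by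
      intro j
      induction j with
      | zero =>
        intro _
        exact le_rfl
      | succ j ih =>
        intro h
        have h4 := ih (Alive_mono h (Nat.le_succ j))
        have h5 := Finset.card_lt_card (h2 j (Alive_mono h (Nat.le_succ j)))
        omega
    intro h
    have := h3 j h
    omega

lemma KK_congr {T : Finset Vtx} {F F' : Finset Edg}
    (h : ∀ e ∈ LRE a b c d, e ∉ inT a b c d (PH a b c d T F) → (e ∈ F ↔ e ∈ F')) :
    KK a b c d T F' = KK a b c d T F := by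
  apply Finset.Subset.antisymm
  · intro f hf
    obtain ⟨h1, f0, h2, ⟨e, he, h3⟩, h4⟩ := mem_KK.mp hf
    refine (dr_closed (P := fun g => g ∈ KK a b c d T F) ?_ h4 (KK_bd h2 he h3)).1
    rintro g g' hg ⟨e', he', hc⟩
    apply KK_step hg
    refine ⟨e', ⟨he'.1, ?_⟩, hc⟩
    have h5 := mem_inT.mp (Finset.mem_coe.mp he'.1)
    intro h6
    apply he'.2
    rw [Finset.mem_coe] at h6 ⊢
    refine (h e' h5.1 ?_).mp h6
    intro h7
    have h8 := (mem_inT.mp h7).2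
    rcases hc with ⟨h9, h10⟩ | ⟨h9, h10⟩
    · exact PH_KK (h9 ▸ h8.1) hg
    · exact PH_KK (h10 ▸ h8.2) hg
  · intro f hf
    obtain ⟨f0, h0, ⟨e, he, hef⟩, hp⟩ := KK_path hf
    refine mem_KK.mpr ⟨(mem_KK.mp hf).1, f0, (mem_KK.mp h0).1, ⟨e, he, hef⟩, hp.mono ?_⟩
    rintro e' ⟨⟨h1, h2⟩, h3, h4⟩
    refine ⟨h1, fun h5 => h2 ?_⟩
    rw [Finset.mem_coe] at h5 ⊢
    refine (h e' (mem_inT.mp (Finset.mem_coe.mp h1)).1 ?_).mpr h5
    intro h7
    exact PH_KK (mem_inT.mp h7).2.1 h3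

theorem t_LOCT : S_LOCT := by
  intro a b c d hab hcd j
  induction j with
  | zero =>
    intro F F' _ _
    exact ⟨rfl, fun i hi => absurd hi (Nat.not_lt_zero i)⟩
  | succ j ih =>
    intro F F' hal h
    have hs : Tn a b c d F (j + 1) ⊆ Tn a b c d F j := PH_sub
    obtain ⟨h1, h2⟩ := ih F F' (Alive_mono hal (Nat.le_succ j)) (by
      intro e he he2
      exact h e he fun h3 => he2 (inT_mono hs h3))
    have h3 : KK a b c d (Tn a b c d F j) F' = KK a b c d (Tn a b c d F j) F := KK_congr h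
    refine ⟨?_, ?_⟩
    · change PH a b c d (Tn a b c d F' j) F' = PH a b c d (Tn a b c d F j) F
      rw [h1]
      unfold PH
      rw [h3]
    · intro i hi x hx1 hx2
      rcases Nat.lt_succ_iff_lt_or_eq.mp hi with h4 | h4
      · exact h2 i h4 x hx1 hx2
      · rw [h4, h1, h3]
        exact hal j (Nat.lt_succ_self j) x hx1 hx2

end Pool.Agent.Q239.FE
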