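import Pool.Agent.Q239.FE.D1

set_option autoImplicit false
set_option linter.unusedSectionVars false

/-! Jobs PATH, CONN of project FE. -/

namespace Pool.Agent.Q239.FE

open H974 hiding KK
open Finset Q78.FE

/-- either a path avoids an edge or it meets its first end -/
lemma reach_split {S : Set Edg} {u v : Vtx} (h : Reach S u v) (e : Edg) (he : e ∈ S) :
    Reach (S \ {e}) u v ∨ Reach S u (src e) := by
  induction h with
  | refl => exact Or.inl (Reach.refl _ _)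
  | @tail w w' hw hs ih =>
    rcases ih with ih | ih
    · obtain ⟨e', he', hc⟩ := hs
      by_cases h1 : e' = e
      · right
        subst h1
        rcases hc with ⟨h2, h3⟩ | ⟨h2, h3⟩
        · rw [h2]
          exact hw
        · have hw' : Reach S u w := hw
          exact hw'.trans (Adj.reach ⟨e', he', Or.inr ⟨rfl, h3⟩⟩)
      · left
        exact ih.trans (Adj.reach ⟨e', ⟨he', h1⟩, hc⟩)
    · exact Or.inr ih

variable {a b c d : ℤ}

/-- a dual path which leaves a set crosses its boundary -/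
lemma dr_cross {G : Set Edg} {T : Finset Vtx} {f g : Vtx} (h : DReach G f g) (hf : f ∉ T)
    (hg : g ∈ T) : ∃ e ∈ G, ¬ (dsrc e ∈ T ↔ dtgt e ∈ T) := by
  by_contra hcon
  push Not at hcon
  have := (dr_closed (P := fun f => f ∉ T) (G := G) (by
    rintro f g hf ⟨e, he, hc⟩ hg
    apply hf
    rcases hc with ⟨h1, h2⟩ | ⟨h1, h2⟩
    · rw [← h1]
      exact (hcon e he).mpr (by rw [h2]; exact hg)
    · rw [← h2]
      exact (hcon e he).mp (by rw [h1]; exact hg)) h hf).1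
  exact this hg

theorem t_CONN : S_CONN := by
  intro a b c d hab hcd T hT
  -- left-right crossing
  obtain ⟨y, y', hy, hy', hr⟩ : ∃ y y' : ℤ, (c ≤ y ∧ y ≤ d) ∧ (c ≤ y' ∧ y' ≤ d) ∧
      Reach (↑(bdT a b c d T)) (a, y) (b, y') := by
    by_contra hcon
    push Not at hcon
    obtain ⟨x, x', hx, hx', hd⟩ := dual_crossing hab.le hcd
      (fun v => ∃ y : ℤ, (c ≤ y ∧ y ≤ d) ∧ Reach (↑(bdT a b c d T)) (a, y) v)
      (fun y h1 h2 => ⟨y, ⟨h1, h2⟩, Reach.refl _ _⟩)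
      (by
        rintro y' h1 h2 ⟨y, h3, h4⟩
        exact hcon y y' h3 ⟨h1, h2⟩ h4)
    have h1 : ((x, c - 1) : Vtx) ∉ T := by
      intro h
      have := hT.sub h
      rw [mem_T0] at this
      simp only at this
      omega
    obtain ⟨e, ⟨he1, he2⟩, he3⟩ := dr_cross hd h1 (hT.top x' hx'.1 hx'.2)
    have he : e ∈ bdT a b c d T := mem_bdT.mpr ⟨Finset.mem_coe.mp he2, he3⟩
    apply he1
    constructor
    · rintro ⟨y, h3, h4⟩
      exact ⟨y, h3, h4.trans (Adj.reach ⟨e, Finset.mem_coe.mpr he, Or.inl ⟨rfl, rfl⟩⟩)⟩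
    · rintro ⟨y, h3, h4⟩
      exact ⟨y, h3, h4.trans (Adj.reach ⟨e, Finset.mem_coe.mpr he, Or.inr ⟨rfl, rfl⟩⟩)⟩
  refine ⟨y, y', hy, hy', hr, ?_⟩
  intro e he
  rcases reach_split hr e (Finset.mem_coe.mpr he) with h1 | h1
  · exfalso
    obtain ⟨he1, he2⟩ := mem_bdT.mp he
    have hs := sides he1
    have hG : ∀ e', e' ∉ bdT a b c d T → e' ∈ ((↑(bdT a b c d T) : Set Edg) \ {e})ᶜ :=
      fun e' h h2 => h (Finset.mem_coe.mp h2.1)
    have hex : (↑(exT a b c d T) : Set Edg) ⊆ ((↑(bdT a b c d T) : Set Edg) \ {e})ᶜ ∩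
        ↑(LRE a b c d) := by
      intro e' he'
      have h2 := mem_exT.mp (Finset.mem_coe.mp he')
      refine ⟨hG e' ?_, Finset.mem_coe.mpr h2.1⟩
      intro h3
      exact (mem_bdT.mp h3).2 ⟨fun h => absurd h h2.2.1, fun h => absurd h h2.2.2⟩
    have hin : (↑(inT a b c d T) : Set Edg) ⊆ ((↑(bdT a b c d T) : Set Edg) \ {e})ᶜ ∩
        ↑(LRE a b c d) := by
      intro e' he'
      have h2 := mem_inT.mp (Finset.mem_coe.mp he')
      refine ⟨hG e' ?_, Finset.mem_coe.mpr h2.1⟩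
      intro h3
      exact (mem_bdT.mp h3).2 ⟨fun _ => h2.2.2, fun _ => h2.2.1⟩
    have hee : e ∈ ((↑(bdT a b c d T) : Set Edg) \ {e})ᶜ ∩ (↑(LRE a b c d) : Set Edg) :=
      ⟨fun h => h.2 rfl, Finset.mem_coe.mpr he1⟩
    have hpath : Reach (((↑(bdT a b c d T) : Set Edg) \ {e}) ∩ ↑(LRE a b c d)) (a, y) (b, y') := by
      refine h1.mono ?_
      intro e' he'
      exact ⟨he', Finset.mem_coe.mpr (mem_bdT.mp (Finset.mem_coe.mp he'.1)).1⟩
    by_cases h2 : dsrc e ∈ T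
    · have h3 : dtgt e ∉ T := fun h => he2 ⟨fun _ => h, fun _ => h2⟩
      obtain ⟨x, hx1, hx2, hx3⟩ := hT.conC _ hs.2.1 hs.2.2.1 hs.2.2.2.1 hs.2.2.2.2 h3
      obtain ⟨x', hx1', hx2', hx3'⟩ := hT.conT _ h2
      exact no_both hcd hy' ⟨hx1, hx2⟩ hpath
        (((hx3.mono hex).trans (DAdj.reach ⟨e, hee, Or.inr ⟨rfl, rfl⟩⟩)).trans (hx3'.mono hin).symm)
    · have h3 : dtgt e ∈ T := by
        by_contra h
        exact he2 ⟨fun h4 => absurd h4 h2, fun h4 => absurd h4 h⟩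
      obtain ⟨x, hx1, hx2, hx3⟩ := hT.conC _ hs.1.1 hs.1.2.1 hs.1.2.2.1 hs.1.2.2.2 h2
      obtain ⟨x', hx1', hx2', hx3'⟩ := hT.conT _ h3
      exact no_both hcd hy' ⟨hx1, hx2⟩ hpath
        (((hx3.mono hex).trans (DAdj.reach ⟨e, hee, Or.inl ⟨rfl, rfl⟩⟩)).trans (hx3'.mono hin).symm)
  · exact h1

theorem t_PATH : S_PATH := by
  intro a b c d h0 hab hcd hh0 F γ hγF hγL hγ hpath
  obtain ⟨y, y', hy', hr⟩ := hpath
  by_contra hcon
  push Not at hcon
  -- the faces above `γ`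
  let Ab : Vtx → Prop := fun f => ∃ x : ℤ, a ≤ x ∧ x < b ∧
    DReach ((↑(LRE a b c d) : Set Edg) \ ↑γ) (x, d) f
  have hAb : ∀ f, Ab f ↔ ∃ x : ℤ, a ≤ x ∧ x < b ∧
    DReach ((↑(LRE a b c d) : Set Edg) \ ↑γ) (x, d) f := fun f => Iff.rfl
  have hstep : ∀ f g, Ab f → DAdj ((↑(LRE a b c d) : Set Edg) \ ↑γ) f g → Ab g := by
    rintro f g ⟨x, h1, h2, h3⟩ h
    exact ⟨x, h1, h2, h3.trans h.reach⟩
  -- `c ≤ h0`
  have hch0 : c ≤ h0 := by
    by_contra hlt
    push Not at hlt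
    have hγe : γ = ∅ := by
      apply Finset.eq_empty_of_forall_notMem
      rintro ⟨x, z, _ | _⟩ he
      · have h1 := hγL he
        rw [mem_LRE_false] at h1
        have h2 := (hγ _ he).1
        simp only [src_mk] at h2
        omega
      · have h1 := hγL he
        rw [mem_LRE_true] at h1
        have h2 := (hγ _ he).1
        simp only [src_mk] at h2
        omega
    rw [hγe] at hr
    have : ∀ v, Reach (↑(∅ : Finset Edg)) (a, y) v → v = (a, y) := by
      intro v hv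
      induction hv with
      | refl => rfl
      | tail _ hs _ =>
        obtain ⟨e, he, _⟩ := hs
        exact absurd (Finset.mem_coe.mp he) (Finset.notMem_empty e)
    have h1 := this _ hr
    have h2 : b = a := congrArg Prod.fst h1
    omega
  have hbot : ∀ x : ℤ, a ≤ x → x < b → ¬ Ab (x, c - 1) := by
    rintro x h1 h2 ⟨x', h3, h4, h5⟩
    have hs1 : (↑γ : Set Edg) ⊆ (↑γ : Set Edg) ∩ ↑(LRE a b c d) := by
      intro e he
      exact ⟨he, Finset.mem_coe.mpr (hγL (Finset.mem_coe.mp he))⟩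
    have hs2 : (↑(LRE a b c d) : Set Edg) \ ↑γ ⊆ (↑γ : Set Edg)ᶜ ∩ ↑(LRE a b c d) := by
      intro e he
      exact ⟨he.2, he.1⟩
    exact no_both hcd hy' ⟨h1, h2⟩ (Reach.mono hs1 hr) (DReach.mono hs2 h5.symm)
  have hAT0 : ∀ f, Ab f → f ∈ T0 a b c d := by
    rintro f ⟨x, h1, h2, h3⟩
    have h4 : Ab (x, d) := ⟨x, h1, h2, DReach.refl _ _⟩
    have h5 := dr_closed (P := fun f => Ab f ∧ f ∈ T0 a b c d) (G := (↑(LRE a b c d) : Set Edg) \ ↑γ)
      (by
        rintro f g ⟨hf, hfT⟩ hfg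
        have hg : Ab g := hstep f g hf hfg
        refine ⟨hg, ?_⟩
        obtain ⟨e, he, hc⟩ := hfg
        have hs := sides (Finset.mem_coe.mp he.1)
        have hgs : a ≤ g.1 ∧ g.1 < b ∧ c - 1 ≤ g.2 ∧ g.2 ≤ d := by
          rcases hc with ⟨h6, h7⟩ | ⟨h6, h7⟩
          · rw [← h7]; exact hs.2
          · rw [← h6]; exact hs.1
        rw [mem_T0]
        refine ⟨⟨hgs.1, hgs.2.1⟩, ?_, hgs.2.2.2⟩
        by_contra h8
        have h9 : g = (g.1, c - 1) := Prod.ext rfl (by simp only; omega)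
        rw [h9] at hg
        exact hbot g.1 hgs.1 hgs.2.1 hg) h3 ⟨h4, mem_T0.mpr ⟨⟨h1, h2⟩, hcd, le_rfl⟩⟩
    exact h5.1.2
  have hAbh : ∀ x z : ℤ, a ≤ x → x < b → h0 ≤ z → z ≤ d → Ab (x, z) := by
    intro x z h1 h2 h3 h4
    refine ⟨x, h1, h2, DReach.symm (dr_vert h4 ?_)⟩
    intro w h5 h6
    refine ⟨Finset.mem_coe.mpr (mem_LRE_true.mpr ⟨h1, h2, by omega, h6⟩), ?_⟩
    intro h7
    have h8 := (hγ _ (Finset.mem_coe.mp h7)).1
    simp only [src_mk] at h8
    omega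
  have hAbd : ∀ x : ℤ, a ≤ x → x < b → Ab (x, d) := fun x h1 h2 => hAbh x d h1 h2 hh0 le_rfl
  -- the induction
  have key : ∀ j : ℕ, Alive a b c d j F ∧ (∀ f, Ab f → f ∈ Tn a b c d F j) ∧
      ∀ e ∈ γ, e ∉ bdT a b c d (Tn a b c d F j) := by
    intro j
    induction j with
    | zero =>
      refine ⟨fun i hi => absurd hi (Nat.not_lt_zero i), hAT0, ?_⟩
      rintro ⟨x, z, _ | _⟩ he hb
      · obtain ⟨h1, h2⟩ := mem_bdT.mp hb
        rw [mem_LRE_false] at h1
        apply h2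
        change _ ∈ T0 a b c d ↔ _ ∈ T0 a b c d
        rw [dsrc_false, dtgt_mk, mem_T0, mem_T0]
        simp only
        omega
      · obtain ⟨h1, h2⟩ := mem_bdT.mp hb
        rw [mem_LRE_true] at h1
        have h3 : z ≠ c := fun h4 => (hγ _ he).2.2 ⟨rfl, h4⟩
        apply h2
        change _ ∈ T0 a b c d ↔ _ ∈ T0 a b c d
        rw [dsrc_true, dtgt_mk, mem_T0, mem_T0]
        simp only
        omega
    | succ j ih =>
      obtain ⟨ih1, ih2, ih3⟩ := ih
      set T := Tn a b c d F j with hT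
      have hK : ∀ f, f ∈ Q78.FE.KK a b c d T F → ¬ Ab f := by
        intro f hf
        obtain ⟨_, f0, hf0, ⟨e, he, hef⟩, hp⟩ := mem_KK.mp hf
        obtain ⟨he1, he2⟩ := mem_bdT.mp he
        have heγ : e ∉ γ := fun h => ih3 e h he
        have hf0A : ¬ Ab f0 := by
          intro hA
          apply he2
          have hmem : e ∈ (↑(LRE a b c d) : Set Edg) \ ↑γ := ⟨Finset.mem_coe.mpr he1, heγ⟩
          rcases hef with h1 | h1
          · have h2 : Ab (dtgt e) := hstep _ _ hA ⟨e, hmem, Or.inl ⟨h1, rfl⟩⟩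
            exact ⟨fun _ => ih2 _ h2, fun _ => by rw [h1]; exact hf0⟩
          · have h2 : Ab (dsrc e) := hstep _ _ hA ⟨e, hmem, Or.inr ⟨rfl, h1⟩⟩
            exact ⟨fun _ => by rw [h1]; exact hf0, fun _ => ih2 _ h2⟩
        refine (dr_closed (P := fun g => ¬ Ab g) ?_ hp hf0A).1
        intro g g' hg hgg hg'
        apply hg
        apply hstep _ _ hg'
        obtain ⟨e', he', hc⟩ := hgg.symm
        refine ⟨e', ⟨Finset.mem_coe.mpr (mem_inT.mp (Finset.mem_coe.mp he'.1)).1, ?_⟩, hc⟩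
        intro h5
        exact he'.2 (Finset.mem_coe.mpr (hγF (Finset.mem_coe.mp h5)))
      have hal : Alive a b c d (j + 1) F := by
        intro i hi x h1 h2
        rcases Nat.lt_succ_iff_lt_or_eq.mp hi with h4 | h4
        · exact ih1 i h4 x h1 h2
        · rw [h4]
          intro h5
          exact hK _ h5 (hAbd x h1 h2)
      have hAT : ∀ f, Ab f → f ∈ T \ Q78.FE.KK a b c d T F := fun f hf =>
        Finset.mem_sdiff.mpr ⟨ih2 f hf, fun h => hK f h hf⟩
      have hsub : ∀ f, Ab f → f ∈ Tn a b c d F (j + 1) := by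
        intro f hf
        change f ∈ PH a b c d T F
        obtain ⟨x, h1, h2, h3⟩ := hf
        refine mem_PH.mpr ⟨hAT f ⟨x, h1, h2, h3⟩, x, h1, h2, hAT _ (hAbd x h1 h2), ?_⟩
        refine (dr_closed (P := Ab) hstep h3 (hAbd x h1 h2)).2.mono ?_
        rintro e ⟨he1, he2, he3⟩
        rw [Finset.mem_coe, mem_inT]
        exact ⟨Finset.mem_coe.mp he1.1, hAT _ he2, hAT _ he3⟩
      refine ⟨hal, hsub, ?_⟩
      intro e he hb
      obtain ⟨x, z, h1, h2, h3, h4, h5⟩ := hcon (j + 1) (by omega) hal ⟨e, he, hb⟩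
      exact h5 (hsub _ (hAbh x z h1 h2 h3 h4))
  have h1 := (t_OPEN a b c d hab hcd F ((T0 a b c d).card + 1)).2.2 (key _).1
  omega

end Pool.Agent.Q239.FE
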