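import Pool.Agent.Q239.FE.D2

set_option autoImplicit false
set_option linter.unusedSectionVars false

/-! Job RES of project FE: the sum over the steps of the exploration. -/

namespace Pool.Agent.Q239.FE

open H974 hiding KK
open Finset Q78.FE

/-- The exploration is alive at step `j` and its region is `T`. -/
def Aj (a b c d : ℤ) (j : ℕ) (T : Finset Vtx) (F : Finset Edg) : Prop :=
  Alive a b c d j F ∧ Tn a b c d F j = T

/-- The closed faces do not reach the top. -/
def NK (a b c d : ℤ) (T : Finset Vtx) (F : Finset Edg) : Prop :=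
  ∀ x : ℤ, a ≤ x → x < b → (x, d) ∉ Q78.FE.KK a b c d T F

variable {a b c d : ℤ}

lemma Tn_sub (F : Finset Edg) (j : ℕ) : Tn a b c d F j ⊆ T0 a b c d := by
  induction j with
  | zero => exact Finset.Subset.refl _
  | succ j ih => exact PH_sub.trans ih

lemma Aj_imp (hab : a < b) (hcd : c ≤ d) {j : ℕ} {T : Finset Vtx} {F F' : Finset Edg}
    (h : ∀ e ∈ LRE a b c d, e ∉ inT a b c d T → (e ∈ F ↔ e ∈ F')) (hA : Aj a b c d j T F) :
    Aj a b c d j T F' := by
  obtain ⟨h1, h2⟩ := hA
  have h3 := t_LOCT a b c d hab hcd j F F' h1 (by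
    intro e he he2
    rw [h2] at he2
    exact h e he he2)
  exact ⟨h3.2, h3.1.trans h2⟩

lemma Aj_iff (hab : a < b) (hcd : c ≤ d) {j : ℕ} {T : Finset Vtx} {F F' : Finset Edg}
    (h : ∀ e ∈ LRE a b c d, e ∉ inT a b c d T → (e ∈ F ↔ e ∈ F')) :
    Aj a b c d j T F ↔ Aj a b c d j T F' :=
  ⟨Aj_imp hab hcd h, Aj_imp hab hcd fun e he he2 => (h e he he2).symm⟩

lemma KK_loc (T : Finset Vtx) (F : Finset Edg) :
    Q78.FE.KK a b c d T (F ∩ inT a b c d T) = Q78.FE.KK a b c d T F := by
  have h1 : (↑(inT a b c d T) : Set Edg) \ ↑(F ∩ inT a b c d T) = ↑(inT a b c d T) \ ↑F := by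
    ext e
    simp only [Set.mem_sdiff, Finset.mem_coe, Finset.mem_inter]
    tauto
  unfold Q78.FE.KK
  rw [h1]

lemma inT_sub_LRE (T : Finset Vtx) : inT a b c d T ⊆ LRE a b c d := Finset.filter_subset _ _

/-- if the closed faces do not reach the top there is a left-right crossing -/
lemma NK_LRc (hab : a < b) (hcd : c ≤ d) {T : Finset Vtx} (hT : Reg a b c d T) {F : Finset Edg}
    (h : NK a b c d T F) : LRc a b c d F := by
  by_contra hcon
  obtain ⟨x, x', hx, hx', hd⟩ := dual_crossing hab.le hcd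
    (fun v => ∃ y : ℤ, (c ≤ y ∧ y ≤ d) ∧ Reach ((↑F : Set Edg) ∩ ↑(LRE a b c d)) (a, y) v)
    (fun y h1 h2 => ⟨y, ⟨h1, h2⟩, Reach.refl _ _⟩)
    (by
      rintro y' h1 h2 ⟨y, h3, h4⟩
      exact hcon ⟨y, y', h3, ⟨h1, h2⟩, h4⟩)
  have h1 : ((x, c - 1) : Vtx) ∉ T := by
    intro h
    have := hT.sub h
    rw [mem_T0] at this
    simp only at this
    omega
  have hclosed : ∀ e, e ∈ bdry (fun v => ∃ y : ℤ, (c ≤ y ∧ y ≤ d) ∧
      Reach ((↑F : Set Edg) ∩ ↑(LRE a b c d)) (a, y) v) → e ∈ LRE a b c d → e ∉ F := by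
    intro e he1 he2 heF
    apply he1
    have he3 : e ∈ (↑F : Set Edg) ∩ ↑(LRE a b c d) := ⟨Finset.mem_coe.mpr heF, Finset.mem_coe.mpr he2⟩
    constructor
    · rintro ⟨y, h3, h4⟩
      exact ⟨y, h3, h4.trans (Adj.reach ⟨e, he3, Or.inl ⟨rfl, rfl⟩⟩)⟩
    · rintro ⟨y, h3, h4⟩
      exact ⟨y, h3, h4.trans (Adj.reach ⟨e, he3, Or.inr ⟨rfl, rfl⟩⟩)⟩
  have h2 := (dr_closed (P := fun f => f ∈ T → f ∈ Q78.FE.KK a b c d T F) (by
    rintro f g hf ⟨e, ⟨he1, he2⟩, hc⟩ hg
    have heL : e ∈ LRE a b c d := Finset.mem_coe.mp he2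
    have heF := hclosed e he1 heL
    by_cases hfT : f ∈ T
    · refine KK_step (hf hfT) ⟨e, ⟨?_, fun h => heF (Finset.mem_coe.mp h)⟩, hc⟩
      rw [Finset.mem_coe, mem_inT]
      rcases hc with ⟨h3, h4⟩ | ⟨h3, h4⟩
      · rw [h3, h4]; exact ⟨heL, hfT, hg⟩
      · rw [h3, h4]; exact ⟨heL, hg, hfT⟩
    · apply KK_bd hg (e := e)
      · rw [mem_bdT]
        rcases hc with ⟨h3, h4⟩ | ⟨h3, h4⟩
        · rw [h3, h4]; exact ⟨heL, fun h => hfT (h.mpr hg)⟩
        · rw [h3, h4]; exact ⟨heL, fun h => hfT (h.mp hg)⟩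
      · rcases hc with ⟨h3, h4⟩ | ⟨h3, h4⟩
        · exact Or.inr h4
        · exact Or.inl h3) hd (fun h => absurd h h1)).1
  exact h x' hx'.1 hx'.2 (h2 (hT.top x' hx'.1 hx'.2))

lemma ind_sum (j : ℕ) (F : Finset Edg) (g : Finset Vtx → ℝ) :
    ∑ T ∈ (T0 a b c d).powerset, ind (Aj a b c d j T F) * g T =
      ind (Alive a b c d j F) * g (Tn a b c d F j) := by
  rw [Finset.sum_eq_single (Tn a b c d F j)]
  · congr 1
    apply ind_congr
    exact ⟨fun h => h.1, fun h => ⟨h, rfl⟩⟩
  · intro T _ hT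
    rw [ind_not_of, zero_mul]
    intro h
    exact hT h.2.symm
  · intro h
    exact absurd (Finset.mem_powerset.mpr (Tn_sub F j)) h

section

variable {p : ℝ} (h0 : 0 ≤ p) (h1 : p ≤ 1) (hab : a < b) (hcd : c ≤ d) {U : Finset Edg}
  (hU : LRE a b c d ⊆ U) {q : Finset Edg → ℝ} (hq0 : ∀ F, 0 ≤ q F)
  (hq : ∀ F, q F = q (F \ LRE a b c d))

include hab hcd hU hq in
/-- independence of the past of the exploration and the region -/
lemma indep (j : ℕ) (T : Finset Vtx) (g : Finset Edg → ℝ)
    (hg : ∀ F, F ⊆ U → g F = g (F ∩ inT a b c d T)) :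
    Ex (fun _ => p) U (fun F => (q F * ind (Aj a b c d j T F)) * g F) =
      Ex (fun _ => p) U (fun F => q F * ind (Aj a b c d j T F)) * Ex (fun _ => p) U g := by
  have hI : inT a b c d T ⊆ U := (inT_sub_LRE T).trans hU
  refine Ex_mul_indep (S := U \ inT a b c d T) (T := inT a b c d T) Finset.sdiff_subset hI
    Finset.sdiff_disjoint ?_ hg
  intro F hF
  congr 1
  · rw [hq F, hq (F ∩ (U \ inT a b c d T))]
    congr 1
    ext e
    simp only [Finset.mem_sdiff, Finset.mem_inter]
    constructor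
    · rintro ⟨h2, h3⟩
      exact ⟨⟨h2, hF h2, fun h => h3 (inT_sub_LRE T h)⟩, h3⟩
    · rintro ⟨⟨h2, _⟩, h3⟩
      exact ⟨h2, h3⟩
  · apply ind_congr
    apply Aj_iff hab hcd
    intro e he he2
    simp only [Finset.mem_sdiff, Finset.mem_inter]
    constructor
    · intro h
      exact ⟨h, hF h, he2⟩
    · intro h
      exact h.1

include h0 h1 hab hcd hU hq0 hq in
lemma alive_le (j : ℕ) : Ex (fun _ => p) U (fun F => q F * ind (Alive a b c d j F)) ≤
    hh p (b - a) (d - c) ^ j * Ex (fun _ => p) U q := by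
  have hok : Ok (fun _ : Edg => p) := fun _ => ⟨h0, h1⟩
  induction j with
  | zero =>
    rw [pow_zero, one_mul]
    apply Ex_mono hok
    intro F _
    have := ind_le_one (Alive a b c d 0 F)
    have := hq0 F
    nlinarith
  | succ j ih =>
    have hρ := hh_nonneg h0 h1 (b - a) (d - c)
    have h2 : ∀ F, q F * ind (Alive a b c d (j + 1) F) =
        ∑ T ∈ (T0 a b c d).powerset, (q F * ind (Aj a b c d j T F)) * ind (NK a b c d T F) := by
      intro F
      have h3 := ind_sum (a := a) (b := b) (c := c) (d := d) j F (fun T => ind (NK a b c d T F))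
      have h4 : ind (Alive a b c d (j + 1) F) =
          ind (Alive a b c d j F) * ind (NK a b c d (Tn a b c d F j) F) := by
        rw [← ind_and]
        apply ind_congr
        constructor
        · intro h
          exact ⟨Alive_mono h (Nat.le_succ j), h j (Nat.lt_succ_self j)⟩
        · rintro ⟨h5, h6⟩ i hi
          rcases Nat.lt_succ_iff_lt_or_eq.mp hi with h7 | h7
          · exact h5 i h7
          · rw [h7]
            exact h6
      rw [h4, ← h3, Finset.mul_sum]
      exact Finset.sum_congr rfl fun T _ => by ring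
    have h3 : ∀ F, q F * ind (Alive a b c d j F) =
        ∑ T ∈ (T0 a b c d).powerset, q F * ind (Aj a b c d j T F) := by
      intro F
      have h4 := ind_sum (a := a) (b := b) (c := c) (d := d) j F (fun _ => 1)
      simp only [mul_one] at h4
      rw [← h4, Finset.mul_sum]
    calc Ex (fun _ => p) U (fun F => q F * ind (Alive a b c d (j + 1) F))
        = ∑ T ∈ (T0 a b c d).powerset, Ex (fun _ => p) U
            (fun F => (q F * ind (Aj a b c d j T F)) * ind (NK a b c d T F)) := by
          rw [Ex_congr (fun F _ => h2 F), Ex_sum]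
      _ ≤ ∑ T ∈ (T0 a b c d).powerset, Ex (fun _ => p) U
            (fun F => q F * ind (Aj a b c d j T F)) * hh p (b - a) (d - c) := by
          apply Finset.sum_le_sum
          intro T _
          by_cases hT : Reg a b c d T
          · rw [indep hab hcd hU hq j T (fun F => ind (NK a b c d T F)) (by
              intro F _
              apply ind_congr
              unfold NK
              rw [KK_loc])]
            apply mul_le_mul_of_nonneg_left
            · rw [← pr_LRc p hU]
              exact Pr_mono hok fun F _ h => NK_LRc hab hcd hT h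
            · apply Ex_nonneg hok
              intro F _
              exact mul_nonneg (hq0 F) (ind_nonneg _)
          · have h5 : ∀ F, ind (Aj a b c d j T F) = 0 := by
              intro F
              apply ind_not_of
              intro h
              apply hT
              rw [← h.2]
              exact t_REG a b c d hab hcd F j h.1
            simp only [h5, mul_zero, zero_mul]
            rw [Ex_const, zero_mul]
      _ = Ex (fun _ => p) U (fun F => q F * ind (Alive a b c d j F)) * hh p (b - a) (d - c) := by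
          rw [Ex_congr (fun F _ => h3 F), Ex_sum, Finset.sum_mul]
      _ ≤ (hh p (b - a) (d - c) ^ j * Ex (fun _ => p) U q) * hh p (b - a) (d - c) :=
          mul_le_mul_of_nonneg_right ih hρ
      _ = _ := by ring

end

/-- averaging twice -/
lemma ex_twice {p : Edg → ℝ} {U I : Finset Edg} (hI : I ⊆ U) (W : Finset Edg → ℝ) :
    Ex p U (fun F => Ex p U (fun G => W ((F ∩ I) ∪ (G \ I)))) = Ex p U W := by
  have h1 : Ex p U (fun F => Ex p U (fun G => W ((F ∩ I) ∪ (G \ I)))) =
      Ex p I (fun F => Ex p U (fun G => W ((F ∩ I) ∪ (G \ I)))) := by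
    apply Ex_local hI
    intro F _
    rw [Finset.inter_assoc, Finset.inter_self]
  have h2 : U = I ∪ (U \ I) := by rw [Finset.union_sdiff_of_subset hI]
  rw [h1]
  conv_rhs => rw [h2]
  rw [Ex_union Finset.disjoint_sdiff]
  apply Ex_congr
  intro A hA
  have h3 : A ∩ I = A := Finset.inter_eq_left.mpr hA
  rw [h3, Ex_local (S' := U \ I) Finset.sdiff_subset]
  · apply Ex_congr
    intro B hB
    congr 2
    apply Finset.sdiff_eq_self_of_disjoint
    exact Finset.disjoint_of_subset_left hB Finset.sdiff_disjoint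
  · intro F hF
    congr 2
    ext e
    simp only [Finset.mem_sdiff, Finset.mem_inter]
    constructor
    · rintro ⟨h4, h5⟩
      exact ⟨⟨h4, hF h4, h5⟩, h5⟩
    · rintro ⟨⟨h4, _⟩, h5⟩
      exact ⟨h4, h5⟩

theorem t_RES : S_RES := by
  intro p h0 h1 a b c d hab hcd hρ1 U hU q Ψ W w hq0 hq hw0 hW0 hW hΨ
  have hok : Ok (fun _ : Edg => p) := fun _ => ⟨h0, h1⟩
  have hρ0 := hh_nonneg h0 h1 (b - a) (d - c)
  set ρ := hh p (b - a) (d - c) with hρ
  have hI : ∀ T, inT a b c d T ⊆ U := fun T => (inT_sub_LRE T).trans hU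
  let WT : Finset Vtx → Finset Edg → ℝ := fun T F => Ex (fun _ => p) U
    (fun G => W T ((F ∩ inT a b c d T) ∪ (G \ inT a b c d T)))
  have hWT0 : ∀ T F, 0 ≤ WT T F := fun T F => Ex_nonneg hok fun G _ => hW0 _ _
  have hbound : ∀ F, F ⊆ U → Ψ F ≤ ∑ j ∈ range ((T0 a b c d).card + 1),
      ∑ T ∈ (T0 a b c d).powerset, (q F * ind (Aj a b c d j T F)) * WT T F := by
    intro F hF
    have hnn : ∀ j T, 0 ≤ (q F * ind (Aj a b c d j T F)) * WT T F := fun j T =>
      mul_nonneg (mul_nonneg (hq0 F) (ind_nonneg _)) (hWT0 T F)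
    rcases hΨ F hF with h | ⟨j, hj1, hal, h⟩
    · exact h.trans (Finset.sum_nonneg fun j _ => Finset.sum_nonneg fun T _ => hnn j T)
    · have hj : j ∈ range ((T0 a b c d).card + 1) := by
        rw [Finset.mem_range]
        have := (t_OPEN a b c d hab hcd F j).2.2 hal
        omega
      have h2 : Ψ F ≤ q F * WT (Tn a b c d F j) F := by
        have h3 : Ex (fun _ : Edg => p) U (fun _ => Ψ F) ≤ Ex (fun _ => p) U (fun G => q F *
            W (Tn a b c d F j) ((F ∩ inT a b c d (Tn a b c d F j)) ∪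
              (G \ inT a b c d (Tn a b c d F j)))) := Ex_mono hok fun G hG => h G hG
        rw [Ex_const, Ex_mul_left] at h3
        exact h3
      have h4 : q F * WT (Tn a b c d F j) F ≤
          ∑ T ∈ (T0 a b c d).powerset, (q F * ind (Aj a b c d j T F)) * WT T F := by
        have h5 := Finset.single_le_sum (f := fun T => (q F * ind (Aj a b c d j T F)) * WT T F)
          (fun T _ => hnn j T)
          (Finset.mem_powerset.mpr (Tn_sub (a := a) (b := b) (c := c) (d := d) F j))
        have h6 : ind (Aj a b c d j (Tn a b c d F j) F) = 1 := ind_of ⟨hal, rfl⟩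
        simp only [h6, mul_one] at h5
        exact h5
      refine (h2.trans h4).trans ?_
      exact Finset.single_le_sum (f := fun j => ∑ T ∈ (T0 a b c d).powerset,
        (q F * ind (Aj a b c d j T F)) * WT T F)
        (fun j _ => Finset.sum_nonneg fun T _ => hnn j T) hj
  have hterm : ∀ j, Ex (fun _ => p) U (fun F => ∑ T ∈ (T0 a b c d).powerset,
      (q F * ind (Aj a b c d j T F)) * WT T F) ≤ ρ ^ j * Ex (fun _ => p) U q * w := by
    intro j
    rw [Ex_sum]
    have h3 : ∀ F, q F * ind (Alive a b c d j F) =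
        ∑ T ∈ (T0 a b c d).powerset, q F * ind (Aj a b c d j T F) := by
      intro F
      have h4 := ind_sum (a := a) (b := b) (c := c) (d := d) j F (fun _ => 1)
      simp only [mul_one] at h4
      rw [← h4, Finset.mul_sum]
    calc ∑ T ∈ (T0 a b c d).powerset, Ex (fun _ => p) U
          (fun F => (q F * ind (Aj a b c d j T F)) * WT T F)
        ≤ ∑ T ∈ (T0 a b c d).powerset, Ex (fun _ => p) U
            (fun F => q F * ind (Aj a b c d j T F)) * w := by
          apply Finset.sum_le_sum
          intro T _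
          rw [indep hab hcd hU hq j T (WT T) (by
            intro F _
            change Ex _ _ _ = Ex _ _ _
            rw [Finset.inter_assoc, Finset.inter_self])]
          apply mul_le_mul_of_nonneg_left
          · change Ex _ _ (fun F => Ex _ _ _) ≤ w
            rw [ex_twice (hI T)]
            exact hW T
          · apply Ex_nonneg hok
            intro F _
            exact mul_nonneg (hq0 F) (ind_nonneg _)
      _ = Ex (fun _ => p) U (fun F => q F * ind (Alive a b c d j F)) * w := by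
          rw [Ex_congr (fun F _ => h3 F), Ex_sum, Finset.sum_mul]
      _ ≤ ρ ^ j * Ex (fun _ => p) U q * w :=
          mul_le_mul_of_nonneg_right (alive_le h0 h1 hab hcd hU hq0 hq j) hw0
  have hEq0 : 0 ≤ Ex (fun _ => p) U q := Ex_nonneg hok fun F _ => hq0 F
  have h1ρ : 0 < 1 - ρ := by linarith
  calc Ex (fun _ => p) U Ψ ≤ Ex (fun _ => p) U (fun F => ∑ j ∈ range ((T0 a b c d).card + 1),
        ∑ T ∈ (T0 a b c d).powerset, (q F * ind (Aj a b c d j T F)) * WT T F) :=
        Ex_mono hok hbound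
    _ = ∑ j ∈ range ((T0 a b c d).card + 1), Ex (fun _ => p) U (fun F =>
        ∑ T ∈ (T0 a b c d).powerset, (q F * ind (Aj a b c d j T F)) * WT T F) := by
        rw [Ex_sum]
    _ ≤ ∑ j ∈ range ((T0 a b c d).card + 1), ρ ^ j * Ex (fun _ => p) U q * w :=
        Finset.sum_le_sum fun j _ => hterm j
    _ = (∑ j ∈ range ((T0 a b c d).card + 1), ρ ^ j) * (Ex (fun _ => p) U q * w) := by
        rw [Finset.sum_mul]
        exact Finset.sum_congr rfl fun j _ => by ring
    _ ≤ (1 / (1 - ρ)) * (Ex (fun _ => p) U q * w) := by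
        apply mul_le_mul_of_nonneg_right _ (mul_nonneg hEq0 hw0)
        rw [le_div_iff₀ h1ρ, mul_comm, mul_neg_geom_sum]
        have := pow_nonneg hρ0 ((T0 a b c d).card + 1)
        linarith
    _ = _ := by ring

end Pool.Agent.Q239.FE
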