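import Pool.Agent.Q239.FE.B3
import Pool.Agent.Q239.FE.D3

set_option autoImplicit false
set_option linter.unusedSectionVars false

/-! Jobs COL, STRIP of project FE. -/

namespace Pool.Agent.Q239.FE

open H974 hiding KK WW
open Finset Q78.FE Pool.Agent.H160R2.CV Pool.Agent.H160R2.CV.Quad H362P

theorem t_COL : S_COL := by
  intro a b c d h0 x0 u T hu hT hrow hch hhd hax hxb
  have hu' : (1 : ℤ) ≤ u := by exact_mod_cast hu
  have hPc : ∀ j : ℤ, Dbx (x0, 20 * (u : ℤ) * j + 10 * u) u T →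
      c ≤ 20 * (u : ℤ) * j + 10 * u - 9 * u - 1 := by
    intro j hj
    have h1 := hj (x0, 20 * (u : ℤ) * j + 10 * u - 9 * u - 1) (by simp only; omega)
      (by simp only; omega) (by simp only; omega) (by simp only; omega)
    have h2 := hT.sub h1
    rw [mem_T0] at h2
    exact h2.2.1
  obtain ⟨j1, hj1, hj1'⟩ : ∃ j1 : ℤ, h0 - u + 1 ≤ 20 * (u : ℤ) * j1 ∧
      20 * (u : ℤ) * j1 ≤ h0 - u + 20 * u := by
    refine ⟨(h0 - u + 20 * u) / (20 * u), ?_, ?_⟩
    · have h1 := Int.lt_mul_ediv_self_add (x := h0 - u + 20 * u) (k := 20 * (u : ℤ)) (by omega)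
      linarith
    · have h1 := Int.mul_ediv_self_le (x := h0 - u + 20 * u) (k := 20 * (u : ℤ)) (by omega)
      linarith
  have hP1 : Dbx (x0, 20 * (u : ℤ) * j1 + 10 * u) u T := by
    rintro ⟨x, y⟩ h1 h2 h3 h4
    simp only at h1 h2 h3 h4
    exact hrow x y (by omega) (by omega) (by omega) (by omega)
  -- a low index
  obtain ⟨j2, hj2, hP2⟩ : ∃ j2 : ℤ, j2 ≤ j1 ∧ ¬ Dbx (x0, 20 * (u : ℤ) * j2 + 10 * u) u T := by
    refine ⟨j1 - (20 * (u : ℤ) * j1 + u - c).toNat, by omega, ?_⟩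
    intro h
    have h1 := hPc _ h
    set K : ℤ := ((20 * (u : ℤ) * j1 + u - c).toNat : ℤ) with hK
    have hK0 : 0 ≤ K := by positivity
    have hK1 : 20 * (u : ℤ) * j1 + u - c ≤ K := Int.self_le_toNat _
    have h2 : K ≤ 20 * (u : ℤ) * K := by nlinarith
    have h3 : 20 * (u : ℤ) * (j1 - K) = 20 * (u : ℤ) * j1 - 20 * (u : ℤ) * K := by ring
    rw [h3] at h1
    omega
  obtain ⟨j, hj3, hj4, hj5, hj6⟩ := exists_trans
    (P := fun j => Dbx (x0, 20 * (u : ℤ) * j + 10 * u) u T) hj2 hP2 hP1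
  refine ⟨j, hj6, ?_, hPc j hj6, ?_⟩
  · have h1 : 20 * (u : ℤ) * j ≤ 20 * (u : ℤ) * j1 := mul_le_mul_of_nonneg_left hj4 (by positivity)
    omega
  · have h1 : ∃ f : Vtx, x0 - 9 * u - 1 ≤ f.1 ∧ f.1 ≤ x0 + 9 * u ∧
        20 * (u : ℤ) * (j - 1) + 10 * u - 9 * u - 1 ≤ f.2 ∧
        f.2 ≤ 20 * (u : ℤ) * (j - 1) + 10 * u + 9 * u ∧ f ∉ T := by
      by_contra hcon
      push Not at hcon
      exact hj5 fun f h1 h2 h3 h4 => hcon f h1 h2 h3 h4
    obtain ⟨⟨x, y⟩, h2, h3, h4, h5, h6⟩ := h1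
    simp only at h2 h3 h4 h5
    have h7 : 20 * (u : ℤ) * (j - 1) = 20 * (u : ℤ) * j - 20 * u := by ring
    rw [h7] at h4 h5
    have h8 : ((x, 20 * (u : ℤ) * j + 10 * u) : Vtx) ∈ T := hj6 _ h2 h3 (by simp only; omega)
      (by simp only; omega)
    obtain ⟨y', h9, h10, h11, h12⟩ := exists_trans (P := fun y => ((x, y) : Vtx) ∈ T)
      (y0 := y) (y1 := 20 * (u : ℤ) * j + 10 * u) (by omega) h6 h8
    have h13 := hT.sub h12
    rw [mem_T0] at h13
    simp only at h13
    refine ⟨(x, y', true), ?_, ?_⟩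
    · rw [mem_bdT, mem_LRE_true, dsrc_true, dtgt_mk]
      exact ⟨⟨h13.1.1, h13.1.2, h13.2.1, h13.2.2⟩, fun h => h11 (h.mpr h12)⟩
    · unfold nv
      simp only [src_mk, Prod.fst_sub, Prod.snd_sub]
      omega

/-- the expectation of a product of functions on disjoint sets -/
lemma ex_prod {p : Edg → ℝ} {U : Finset Edg} {ι : Type} [DecidableEq ι] (I : Finset ι)
    (f : ι → Finset Edg → ℝ) (T : ι → Finset Edg) (hT : ∀ i ∈ I, T i ⊆ U)
    (hf : ∀ i ∈ I, ∀ F, f i F = f i (F ∩ T i))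
    (hd : ∀ i ∈ I, ∀ j ∈ I, i ≠ j → Disjoint (T i) (T j)) :
    Ex p U (fun F => ∏ i ∈ I, f i F) = ∏ i ∈ I, Ex p U (f i) := by
  induction I using Finset.induction_on with
  | empty => simp only [Finset.prod_empty]; exact Ex_const _ _ _
  | insert a I ha ih =>
    have ih' := ih (fun i hi => hT i (Finset.mem_insert_of_mem hi))
      (fun i hi => hf i (Finset.mem_insert_of_mem hi))
      (fun i hi j hj => hd i (Finset.mem_insert_of_mem hi) j (Finset.mem_insert_of_mem hj))
    have haU := hT a (Finset.mem_insert_self a I)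
    have h1 : Ex p U (fun F => ∏ i ∈ insert a I, f i F) =
        Ex p U (fun F => f a F * ∏ i ∈ I, f i F) := by
      apply Ex_congr
      intro F _
      rw [Finset.prod_insert ha]
    rw [h1, Ex_mul_indep (S := T a) (T := U \ T a) haU Finset.sdiff_subset Finset.disjoint_sdiff
      (fun F _ => hf a (Finset.mem_insert_self a I) F), ih', Finset.prod_insert ha]
    intro F hF
    apply Finset.prod_congr rfl
    intro i hi
    have hne : i ≠ a := by
      rintro rfl
      exact ha hi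
    have h2 := hd i (Finset.mem_insert_of_mem hi) a (Finset.mem_insert_self a I) hne
    rw [hf i (Finset.mem_insert_of_mem hi) F, hf i (Finset.mem_insert_of_mem hi) (F ∩ (U \ T a))]
    congr 1
    ext e
    simp only [Finset.mem_inter, Finset.mem_sdiff]
    constructor
    · rintro ⟨h3, h4⟩
      exact ⟨⟨h3, hF h3, fun h5 => Finset.disjoint_left.mp h2 h4 h5⟩, h4⟩
    · rintro ⟨⟨h3, _⟩, h4⟩
      exact ⟨h3, h4⟩

lemma WW_nonneg (p θ : ℝ) (z : Vtx) (u : ℕ) (F : Finset Edg) : 0 ≤ WW p θ z u F := by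
  unfold WW wt
  split_ifs
  · exact norm_nonneg _
  · exact zero_le_one

lemma wa_nonneg (p θ : ℝ) (o z : Vtx) (u : ℕ) (F : Finset Edg) : 0 ≤ wa p θ o z u F := by
  unfold wa wt
  split_ifs
  · exact norm_nonneg _
  · exact zero_le_one

lemma WW_loc {p θ : ℝ} {z : Vtx} {u : ℕ} (hu : 1 ≤ u) (F : Finset Edg) :
    WW p θ z u F = WW p θ z u (F ∩ bo z (90 * u)) := by
  classical
  have h1 : F ∩ bo z (90 * u) = (F ∩ bo z (90 * u)) ∩ bo z (90 * u) := by
    rw [Finset.inter_assoc, Finset.inter_self]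
  have hAn : F ∩ An z u = (F ∩ bo z (90 * u)) ∩ An z u :=
    inter_sub ((An_sub z u).trans (bo_mono (by omega))) h1
  have hG := Gd_An hu hAn
  have hL : Lk z u F ↔ Lk z u (F ∩ bo z (90 * u)) :=
    (t_LOC z u hu _ _).2.1 (inter_sub Finset.sdiff_subset h1)
  have hw : wt p θ z u F = wt p θ z u (F ∩ bo z (90 * u)) := by
    unfold wt
    congr 2
    funext G
    congr 2
    apply Yz_congr hu
    have h2 : bo z (9 * u) ⊆ bo z (90 * u) := bo_mono (by omega)
    ext e
    simp only [Finset.mem_inter, Finset.mem_union, Finset.mem_sdiff]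
    have := @h2 e
    tauto
  unfold WW
  by_cases h : Gd z u F ∧ Lk z u F
  · rw [if_pos h, if_pos ⟨hG.mp h.1, hL.mp h.2⟩, hw]
  · rw [if_neg h, if_neg fun h2 => h ⟨hG.mpr h2.1, hL.mpr h2.2⟩]

lemma gg_le_one (R : ℕ) (o : Vtx) (F : Finset Edg) : gg R o F ≤ 1 := by
  unfold gg
  have h0 : 0 ≤ nfl R o F := by
    unfold nfl
    exact Finset.sum_nonneg fun i _ => ind_nonneg _
  by_cases h : fl R o 0 F
  · rw [ind_of h]
    have h1 : (1 : ℝ) ≤ nfl R o F := by
      unfold nfl
      have h2 := Finset.single_le_sum (f := fun i : Fin 4 => ind (fl R o i F))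
        (fun i _ => ind_nonneg _) (Finset.mem_univ 0)
      simp only [ind_of h] at h2
      exact h2
    rw [div_le_one (by linarith)]
    exact h1
  · rw [ind_not_of h, zero_div]
    exact zero_le_one

theorem t_STRIP (bint : S_BINT) (dom : S_DOM) : S_STRIP := by
  intro p θ cc s u n o h0 h1 hu hs hsu hn hc0 hc1 hz ho hh1 q hq0 hq
  have hp1 : p ≤ 1 := by linarith
  have hok : Ok (fun _ : Edg => p) := fun _ => ⟨h0, hp1⟩
  have hspos : (0 : ℤ) < s := by
    have : 0 < s := by omega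
    exact_mod_cast this
  refine (t_INTJ bint p θ s u n o h0 hp1 hu hs (by omega) ho q hq0 hq).trans ?_
  obtain ⟨Z, hZ1, hZ2, hZ3⟩ := dom s u n hu hs hsu hn
  have e1 : (5 * (s : ℤ) - s) = 4 * s := by ring
  have e2 : (9 * (s : ℤ) - -(9 * (s : ℤ))) = 18 * s := by ring
  have key := t_RES p h0 hp1 s (5 * s) (-(9 * (s : ℤ))) (9 * s) (by omega) (by omega)
    (by rw [e1, e2]; exact hh1) (boxE n) (by
      rintro ⟨x, y, _ | _⟩ he
      · simp only [boxE, mem_RE_false, mem_LRE_false] at he ⊢; omega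
      · simp only [boxE, mem_RE_true, mem_LRE_true] at he ⊢; omega)
    q (fun F => q F * gg (8 * s) o F * ∏ z ∈ Jz s u, wa p θ o z u F)
    (fun T F => ∏ k ∈ range (s / (100 * u)), WW p θ (Z T k) u F) ((1 - cc) ^ (s / (100 * u)))
    hq0 hq (pow_nonneg (by linarith) _) (fun T F => Finset.prod_nonneg fun k _ => WW_nonneg _ _ _ _ _)
    (by
      intro T
      have hsub : ∀ k ∈ range (s / (100 * u)), bo (Z T k) (90 * u) ⊆ boxE n := fun k hk =>
        hZ1 T k (Finset.mem_range.mp hk)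
      rw [ex_prod (range (s / (100 * u))) (fun k F => WW p θ (Z T k) u F)
        (fun k => bo (Z T k) (90 * u)) hsub (fun k _ F => WW_loc hu F) (by
          intro i hi j hj hij
          have := hZ2 T i j (Finset.mem_range.mp hi) (Finset.mem_range.mp hj) hij
          exact bo_disj (by omega))]
      have hle : ∀ k ∈ range (s / (100 * u)), Ex (fun _ => p) (boxE n) (WW p θ (Z T k) u) ≤
          1 - cc := by
        intro k hk
        rw [Ex_local (hsub k hk) (fun F _ => WW_loc hu F)]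
        exact hz _
      calc ∏ k ∈ range (s / (100 * u)), Ex (fun _ => p) (boxE n) (WW p θ (Z T k) u)
          ≤ ∏ _k ∈ range (s / (100 * u)), (1 - cc) := by
            apply Finset.prod_le_prod
            · intro k _
              exact Ex_nonneg hok fun F _ => WW_nonneg _ _ _ _ _
            · exact hle
        _ = (1 - cc) ^ (s / (100 * u)) := by rw [Finset.prod_const, Finset.card_range])
    (by
      intro F hF
      by_cases hg : gg (8 * s) o F = 0
      · left
        rw [hg, mul_zero, zero_mul]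
      · right
        obtain ⟨j, hj1, hal, hG⟩ := hZ3 p θ o F h0 hp1 ho hF hg
        refine ⟨j, hj1, hal, fun G hG' => ?_⟩
        have h2 := hG G hG'
        have h3 : 0 ≤ ∏ z ∈ Jz s u, wa p θ o z u F :=
          Finset.prod_nonneg fun z _ => wa_nonneg _ _ _ _ _ _
        calc q F * gg (8 * s) o F * ∏ z ∈ Jz s u, wa p θ o z u F
            ≤ q F * ∏ z ∈ Jz s u, wa p θ o z u F := by
              apply mul_le_mul_of_nonneg_right _ h3
              have := mul_le_mul_of_nonneg_left (gg_le_one (8 * s) o F) (hq0 F)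
              linarith
          _ ≤ _ := mul_le_mul_of_nonneg_left h2 (hq0 F))
  rw [e1, e2] at key
  exact key

end Pool.Agent.Q239.FE
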